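import Pool.Agent.H57.ML.Targets

/-!
# Multi-layer Meyniel: from `RedStmt` to the explicit form, and the maxima are attained
-/

namespace H57.ML

open scoped BigOperators
open Finset
open Classical

/-- one cop on every vertex wins at once. -/
theorem copsWin_all {n τ : ℕ} (hτ : 1 ≤ τ) (𝒢 : MultiLayerGraph (Fin n) τ) :
    ∃ k : Fin τ → ℕ, ∑ i, k i = n ∧ CopsWin 𝒢 k := by
  have h0 : 0 < τ := hτ
  refine ⟨fun i => if i = ⟨0, h0⟩ then n else 0, by simp, ?_⟩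
  have hk : ∀ i : Fin τ, (if i = ⟨0, h0⟩ then n else 0) ≤ n := by
    intro i; split_ifs <;> simp
  refine ⟨⟨fun _ i j => ⟨j.val, lt_of_lt_of_le j.isLt (hk i)⟩, fun _ _ _ _ => Or.inl rfl⟩, ?_⟩
  intro r _
  refine ⟨0, ⟨0, h0⟩, ⟨(r 0).val, by simp [(r 0).isLt]⟩, Or.inl ?_⟩
  rfl

theorem copNumber_spec {n τ : ℕ} (hτ : 1 ≤ τ) (𝒢 : MultiLayerGraph (Fin n) τ) :
    ∃ k : Fin τ → ℕ, ∑ i, k i = copNumber 𝒢 ∧ CopsWin 𝒢 k := by
  obtain ⟨k, hk, hw⟩ := copsWin_all hτ 𝒢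
  exact Nat.sInf_mem (s := {n | ∃ k : Fin τ → ℕ, ∑ i, k i = n ∧ CopsWin 𝒢 k}) ⟨n, k, hk, hw⟩

theorem copNumber_le {n τ : ℕ} (hτ : 1 ≤ τ) (𝒢 : MultiLayerGraph (Fin n) τ) :
    copNumber 𝒢 ≤ n := by
  obtain ⟨k, hk, hw⟩ := copsWin_all hτ 𝒢
  exact Nat.sInf_le ⟨k, hk, hw⟩

/-- for connected `G` the maximum defining `copNumberMax` is attained. -/
theorem copNumberMax_isGreatest {n τ : ℕ} (hτ : 1 ≤ τ) (G : SimpleGraph (Fin n))
    (hG : G.Connected) :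
    IsGreatest {c | ∃ C : Fin τ → SimpleGraph (Fin n), (∀ i, (C i).Connected) ∧ (⨆ i, C i) = G ∧
      c = copNumber (⟨C, G⟩ : MultiLayerGraph (Fin n) τ)} (copNumberMax τ G) := by
  have hbdd : BddAbove {c | ∃ C : Fin τ → SimpleGraph (Fin n), (∀ i, (C i).Connected) ∧
      (⨆ i, C i) = G ∧ c = copNumber (⟨C, G⟩ : MultiLayerGraph (Fin n) τ)} := by
    refine ⟨n, ?_⟩
    rintro c ⟨C, _, _, rfl⟩
    exact copNumber_le hτ _
  have : Nonempty (Fin τ) := ⟨⟨0, hτ⟩⟩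
  refine ⟨Nat.sSup_mem ?_ hbdd, fun c hc => le_csSup hbdd hc⟩
  exact ⟨_, fun _ => G, fun _ => hG, ciSup_const, rfl⟩

/-- for `n ≥ 1` the maximum defining `extremal` is attained. -/
theorem extremal_isGreatest {n τ : ℕ} (hτ : 1 ≤ τ) (hn : 1 ≤ n) :
    IsGreatest {c | ∃ G : SimpleGraph (Fin n), G.Connected ∧ c = copNumberMax τ G}
      (extremal τ n) := by
  have hbdd : BddAbove {c | ∃ G : SimpleGraph (Fin n), G.Connected ∧ c = copNumberMax τ G} := by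
    refine ⟨n, ?_⟩
    rintro c ⟨G, hG, rfl⟩
    obtain ⟨C, _, _, h⟩ := (copNumberMax_isGreatest hτ G hG).1
    rw [h]
    exact copNumber_le hτ _
  have : Nonempty (Fin n) := ⟨⟨0, hn⟩⟩
  refine ⟨Nat.sSup_mem ?_ hbdd, fun c hc => le_csSup hbdd hc⟩
  exact ⟨_, ⊤, SimpleGraph.connected_top, rfl⟩

/-- explicit form. -/
theorem explicit (hred : RedStmt) (τ : ℕ) (hτ : 1 ≤ τ) (ε : ℝ) (hε : 0 < ε) :
    ∃ n0 : ℕ, ∀ n ≥ n0, ∀ G : SimpleGraph (Fin n), ∀ C : Fin τ → SimpleGraph (Fin n),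
      (∀ i, (C i).Connected) → (⨆ i, C i) = G →
      ∃ k : Fin τ → ℕ, ((∑ i, k i : ℕ) : ℝ) ≤ ε * n ∧
        CopsWin (⟨C, G⟩ : MultiLayerGraph (Fin n) τ) k := by
  obtain ⟨n0, hn0⟩ := hred τ ε hτ hε
  refine ⟨n0, fun n hn G C hC hG => ?_⟩
  obtain ⟨k, hk, hw⟩ := copNumber_spec hτ (⟨C, G⟩ : MultiLayerGraph (Fin n) τ)
  refine ⟨k, ?_, hw⟩
  rw [hk]
  have := hn0 (Fin n) (by simpa using hn) C hC G hG
  simpa using this

end H57.ML
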