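import Pool.Agent.H57.ML.Targets

/-!
# RND (MP_6ecee4_co): the rounding lemma, by helper33 (copy of Pool/Agent/H33/ML/Rnd.lean with
three `convert` steps replaced)
-/

namespace H57.ML.Rnd33

open scoped BigOperators
open Finset
open H57.ML
open Classical

/-- the choice of `F0`. -/
theorem exists_F0 (Δ : ℕ) (c : ℝ) (hc : 0 < c) :
    ∃ F0 : ℕ, 1 ≤ F0 ∧ ∀ F : ℕ, F0 ≤ F →
      4 * (((Δ : ℝ) + 1) * Real.exp (-(c * F))) * (((F * Δ : ℕ) : ℝ) + 1) ≤ 1 := by
  refine ⟨⌈8 * ((Δ : ℝ) + 1) ^ 2 / c ^ 2⌉₊ + 1, by omega, ?_⟩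
  intro F hF
  have hF1 : (1 : ℝ) ≤ F := by
    have : 1 ≤ F := by omega
    exact_mod_cast this
  have hF2 : 8 * ((Δ : ℝ) + 1) ^ 2 / c ^ 2 ≤ F := by
    have h1 := Nat.le_ceil (8 * ((Δ : ℝ) + 1) ^ 2 / c ^ 2)
    have h2 : ((⌈8 * ((Δ : ℝ) + 1) ^ 2 / c ^ 2⌉₊ : ℕ) : ℝ) ≤ F := by
      have : ⌈8 * ((Δ : ℝ) + 1) ^ 2 / c ^ 2⌉₊ ≤ F := by omega
      exact_mod_cast this
    exact h1.trans h2
  have hx : 0 ≤ c * F := by positivity
  have hexp : (c * F) ^ 2 / 2 ≤ Real.exp (c * F) := by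
    have := Real.quadratic_le_exp_of_nonneg hx
    linarith
  rw [Real.exp_neg]
  have hpos : 0 < Real.exp (c * F) := Real.exp_pos _
  have hΔ : (0 : ℝ) ≤ Δ := Nat.cast_nonneg _
  have h3 : ((F * Δ : ℕ) : ℝ) + 1 ≤ F * ((Δ : ℝ) + 1) := by
    push_cast
    nlinarith
  have h4 : 4 * (((Δ : ℝ) + 1) * (Real.exp (c * F))⁻¹) * (((F * Δ : ℕ) : ℝ) + 1) ≤
      4 * (((Δ : ℝ) + 1) * (Real.exp (c * F))⁻¹) * (F * ((Δ : ℝ) + 1)) := by
    gcongr
  refine h4.trans ?_
  have h5 : 4 * (((Δ : ℝ) + 1) * (Real.exp (c * F))⁻¹) * (F * ((Δ : ℝ) + 1)) =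
      (4 * ((Δ : ℝ) + 1) ^ 2 * F) / Real.exp (c * F) := by
    field_simp
  rw [h5, div_le_one hpos]
  refine le_trans ?_ hexp
  have h6 : 8 * ((Δ : ℝ) + 1) ^ 2 ≤ F * c ^ 2 := by
    rwa [div_le_iff₀ (by positivity)] at hF2
  have h7 : (c * F) ^ 2 / 2 = (F * c ^ 2) * F / 2 := by ring
  rw [h7]
  nlinarith

/-- indicator of a proposition. -/
noncomputable def ind (P : Prop) : ℝ := if P then 1 else 0

theorem ind_nonneg (P : Prop) : 0 ≤ ind P := by unfold ind; split_ifs <;> norm_num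

theorem ind_le_one (P : Prop) : ind P ≤ 1 := by unfold ind; split_ifs <;> norm_num

theorem ind_congr {P Q : Prop} (h : P ↔ Q) : ind P = ind Q := by
  rw [propext h]

theorem sum_ind {α : Type*} (s : Finset α) (P : α → Prop) [DecidablePred P] :
    ∑ a ∈ s, ind (P a) = ((s.filter P).card : ℝ) := by
  have h : ∀ a, ind (P a) = if P a then (1 : ℝ) else 0 := by
    intro a
    unfold ind
    by_cases hP : P a <;> simp [hP]
  simp only [h]
  rw [Finset.sum_ite]
  simp

theorem lll' (hLLL : LLLStmt) (I Λ W : Type) [Fintype I] [DecidableEq I] [Fintype Λ] [Nonempty Λ]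
    [Fintype W] (A : W → (I → Λ) → Prop)
    (dep : W → Finset I) (d : ℕ) (p : ℝ)
    (h1 : ∀ w ω ω', (∀ i ∈ dep w, ω i = ω' i) → (A w ω ↔ A w ω'))
    (h2 : ∀ w, (univ.filter (fun w' => w' ≠ w ∧ ¬ Disjoint (dep w) (dep w'))).card ≤ d)
    (h3 : ∀ w, ((univ.filter (fun ω => A w ω)).card : ℝ) ≤ p * (Fintype.card (I → Λ) : ℝ))
    (h4 : 4 * p * (d + 1) ≤ 1) : ∃ ω, ∀ w, ¬ A w ω := by
  have e : ‹DecidableEq I› = fun a b => Classical.propDecidable (a = b) := Subsingleton.elim _ _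
  subst e
  refine hLLL I Λ W A dep d p h1 (fun w => ?_) (fun w => ?_) h4
  · exact le_of_eq_of_le (by congr) (h2 w)
  · exact le_of_eq_of_le (by congr) (h3 w)

theorem conc' (hConc : ConcStmt) (I Λ U : Type) [Fintype I] [DecidableEq I] [Fintype Λ] [Nonempty Λ]
    [Fintype U] (x : U → (I → Λ) → ℝ)
    (dep : U → Finset I) (Δ F : ℕ) (B t : ℝ) (hB : 0 < B) (ht : 0 < t) (hU : Fintype.card U ≤ F)
    (h1 : ∀ u ω, |x u ω| ≤ B)
    (h2 : ∀ u ω ω', (∀ i ∈ dep u, ω i = ω' i) → x u ω = x u ω')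
    (h3 : ∀ u, (univ.filter (fun u' => u' ≠ u ∧ ¬ Disjoint (dep u) (dep u'))).card ≤ Δ)
    (h4 : ∀ u, ∑ ω, x u ω ≤ 0) :
    ((univ.filter (fun ω => t ≤ ∑ u, x u ω)).card : ℝ) ≤
      (Δ + 1) * Real.exp (-(t ^ 2) / (2 * ((Δ : ℝ) + 1) ^ 2 * F * B ^ 2)) *
        (Fintype.card (I → Λ) : ℝ) := by
  have e : ‹DecidableEq I› = fun a b => Classical.propDecidable (a = b) := Subsingleton.elim _ _
  subst e
  have h := hConc I Λ U x dep Δ F B t hB ht hU h1 h2 (fun u => le_of_eq_of_le (by congr) (h3 u))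
    (fun u => h4 u)
  exact le_of_eq_of_le (by congr) h

/-- RND. -/
theorem rnd (hLLL : LLLStmt) (hConc : ConcStmt) (hSam : SamStmt) : RndStmt := by
  intro D S δ hD hδ
  set e : ℝ := δ / 4 with he
  have he0 : 0 < e := by positivity
  obtain ⟨Q, N, hQ, hN, hsam⟩ := hSam D S e he0
  set Δ : ℕ := (D + 1) ^ (2 * S + 2) with hΔ
  set B : ℝ := 3 + e with hB
  have hB0 : 0 < B := by positivity
  set c : ℝ := δ ^ 2 / (8 * ((Δ : ℝ) + 1) ^ 2 * B ^ 2) with hc
  have hc0 : 0 < c := by positivity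
  obtain ⟨F0, hF01, hF0⟩ := exists_F0 Δ c hc0
  refine ⟨F0, ?_⟩
  intro F hF V _ H hdeg ζ hζ hζS g hg K α β hα0 hα1 hβ hK win hwin
  obtain ⟨Rm, hRm1, hRm0, hRmloc, hRmb, hRmg⟩ := hsam V H hdeg ζ hζ hζS g hg
  have hFpos : (0 : ℝ) < F := by
    have : 0 < F := by omega
    exact_mod_cast this
  have : Nonempty (Fin N × Fin N) := ⟨(⟨0, hN⟩, ⟨0, hN⟩)⟩
  -- the random variables
  let x : V → ((V × Fin Q) → Fin N × Fin N) → ℝ := fun u ω =>
    ind (Rm ω u ∧ ∃ u', H.Adj u u' ∧ ¬ Rm ω u') - α * ind (Rm ω u) - β u - e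
  let dep : V → Finset (V × Fin Q) := fun u => univ.filter (fun q => Within H (S + 1) u q.1)
  have hxB : ∀ u ω, |x u ω| ≤ B := by
    intro u ω
    have h1 := ind_nonneg (Rm ω u ∧ ∃ u', H.Adj u u' ∧ ¬ Rm ω u')
    have h2 := ind_le_one (Rm ω u ∧ ∃ u', H.Adj u u' ∧ ¬ Rm ω u')
    have h3 := ind_nonneg (Rm ω u)
    have h4 := ind_le_one (Rm ω u)
    have h5 := (hβ u).1
    have h6 := (hβ u).2
    have h7 : 0 ≤ α * ind (Rm ω u) := mul_nonneg hα0 h3
    have h8 : α * ind (Rm ω u) ≤ 1 := by nlinarith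
    rw [abs_le]
    constructor
    · show -B ≤ ind _ - α * ind _ - β u - e
      rw [hB]; linarith
    · show ind _ - α * ind _ - β u - e ≤ B
      rw [hB]; linarith
  have hxdep : ∀ u ω ω', (∀ q ∈ dep u, ω q = ω' q) → x u ω = x u ω' := by
    intro u ω ω' h
    have h1 : Rm ω u ↔ Rm ω' u := by
      apply hRmloc
      intro z i hz
      apply h
      simp only [dep, mem_filter, mem_univ, true_and]
      exact hz.mono (Nat.le_succ S)
    have h2 : ∀ u', H.Adj u u' → (Rm ω u' ↔ Rm ω' u') := by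
      intro u' hu'
      apply hRmloc
      intro z i hz
      apply h
      simp only [dep, mem_filter, mem_univ, true_and]
      have := (Within.of_adj hu').trans hz
      rwa [add_comm] at this
    have h3 : (Rm ω u ∧ ∃ u', H.Adj u u' ∧ ¬ Rm ω u') ↔ (Rm ω' u ∧ ∃ u', H.Adj u u' ∧ ¬ Rm ω' u') := by
      rw [h1]
      constructor
      · rintro ⟨a, u', hu', hb⟩
        exact ⟨a, u', hu', fun hc => hb ((h2 u' hu').mpr hc)⟩
      · rintro ⟨a, u', hu', hb⟩
        exact ⟨a, u', hu', fun hc => hb ((h2 u' hu').mp hc)⟩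
    show ind _ - α * ind _ - β u - e = ind _ - α * ind _ - β u - e
    rw [ind_congr h3, ind_congr h1]
  have hxmean : ∀ u ∈ K, ∑ ω, x u ω ≤ 0 := by
    intro u hu
    have h1 := hRmb u
    have h2 := hRmg u
    have h3 := hK u hu
    have hcard0 : (0 : ℝ) ≤ (Fintype.card (V × Fin Q → Fin N × Fin N) : ℝ) := Nat.cast_nonneg _
    have h4 : ∑ ω, x u ω = ((univ.filter (fun ω => Rm ω u ∧ ∃ u', H.Adj u u' ∧ ¬ Rm ω u')).card : ℝ)
        - α * ((univ.filter (fun ω => Rm ω u)).card : ℝ) -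
          (β u + e) * (Fintype.card (V × Fin Q → Fin N × Fin N) : ℝ) := by
      have e1 : ∑ ω, ind (Rm ω u ∧ ∃ u', H.Adj u u' ∧ ¬ Rm ω u') =
        ((univ.filter (fun ω => Rm ω u ∧ ∃ u', H.Adj u u' ∧ ¬ Rm ω u')).card : ℝ) := sum_ind _ _
      have e2 : ∑ ω, ind (Rm ω u) = ((univ.filter (fun ω => Rm ω u)).card : ℝ) := sum_ind _ _
      show ∑ ω, (ind _ - α * ind _ - β u - e) = _
      rw [Finset.sum_sub_distrib, Finset.sum_sub_distrib, Finset.sum_sub_distrib, e1,
        ← Finset.mul_sum, e2]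
      simp only [Finset.sum_const, Finset.card_univ, nsmul_eq_mul]
      ring
    rw [h4]
    have h5 : (g u * var H ζ u + ∑ u' ∈ univ.filter (fun u' => H.Adj u u'), max (g u - g u') 0 + e) *
          (Fintype.card (V × Fin Q → Fin N × Fin N) : ℝ) ≤ (α * g u + β u + e) *
          (Fintype.card (V × Fin Q → Fin N × Fin N) : ℝ) := by
      gcongr
    have h6 : α * (g u * (Fintype.card (V × Fin Q → Fin N × Fin N) : ℝ)) ≤
        α * ((univ.filter (fun ω => Rm ω u)).card : ℝ) := by gcongr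
    nlinarith
  have hball : ∀ u u', ¬ Disjoint (dep u) (dep u') → Within H (2 * S + 2) u u' := by
    intro u u' h
    rw [Finset.not_disjoint_iff] at h
    obtain ⟨q, hq, hq'⟩ := h
    simp only [dep, mem_filter, mem_univ, true_and] at hq hq'
    have := hq.trans hq'.symm
    have e1 : S + 1 + (S + 1) = 2 * S + 2 := by ring
    rwa [e1] at this
  -- the events
  let W : Type := {i : ℕ // i ∈ K.image win}
  let KW : ℕ → Finset V := fun i => K.filter (fun u => win u = i)
  have hKW : ∀ i, (KW i).card ≤ F := by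
    intro i
    refine (card_le_card ?_).trans (hwin i)
    intro u hu
    simp only [KW, mem_filter] at hu
    simp [hu.2]
  set t : ℝ := δ * F / 2 with ht
  have ht0 : 0 < t := by positivity
  let A : W → ((V × Fin Q) → Fin N × Fin N) → Prop := fun w ω => t ≤ ∑ u ∈ KW w.1, x u ω
  let depW : W → Finset (V × Fin Q) := fun w => (KW w.1).biUnion dep
  obtain ⟨ω, hω⟩ := lll' hLLL (V × Fin Q) (Fin N × Fin N) W A depW (F * Δ)
    (((Δ : ℝ) + 1) * Real.exp (-(c * F))) (by
      intro w ω ω' h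
      have : ∑ u ∈ KW w.1, x u ω = ∑ u ∈ KW w.1, x u ω' := by
        refine Finset.sum_congr rfl fun u hu => hxdep u ω ω' fun q hq => h q ?_
        exact mem_biUnion.mpr ⟨u, hu, hq⟩
      show t ≤ _ ↔ t ≤ _
      rw [this]) (by
      intro w
      have hsub : ((univ.filter (fun w' : W => w' ≠ w ∧ ¬ Disjoint (depW w) (depW w'))).image
          (fun w' : W => w'.1)) ⊆ ((KW w.1).biUnion (fun u => univ.filter
            (fun u' => Within H (2 * S + 2) u u'))).image win := by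
        intro i hi
        obtain ⟨w', hw', rfl⟩ := mem_image.mp hi
        obtain ⟨_, hne, hnd⟩ := mem_filter.mp hw'
        rw [Finset.not_disjoint_iff] at hnd
        obtain ⟨q, hq, hq'⟩ := hnd
        obtain ⟨u, hu, huq⟩ := mem_biUnion.mp hq
        obtain ⟨u', hu', huq'⟩ := mem_biUnion.mp hq'
        refine mem_image.mpr ⟨u', ?_, (mem_filter.mp hu').2⟩
        refine mem_biUnion.mpr ⟨u, hu, ?_⟩
        simp only [mem_filter, mem_univ, true_and]
        exact hball u u' (Finset.not_disjoint_iff.mpr ⟨q, huq, huq'⟩)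
      have hinj : ((univ.filter (fun w' : W => w' ≠ w ∧ ¬ Disjoint (depW w) (depW w'))).image
          (fun w' : W => w'.1)).card =
          (univ.filter (fun w' : W => w' ≠ w ∧ ¬ Disjoint (depW w) (depW w'))).card :=
        Finset.card_image_of_injective _ Subtype.val_injective
      have hle : (univ.filter (fun w' : W => w' ≠ w ∧ ¬ Disjoint (depW w) (depW w'))).card ≤
          F * Δ := by
        rw [← hinj]
        refine (card_le_card hsub).trans (Finset.card_image_le.trans ?_)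
        refine (Finset.card_biUnion_le_card_mul _ _ Δ fun u _ => card_ball_le hdeg _ _).trans ?_
        exact Nat.mul_le_mul_right _ (hKW w.1)
      convert hle) (by
      intro w
      let U : Type := {u : V // u ∈ KW w.1}
      have hU : Fintype.card U ≤ F := by
        rw [Fintype.card_coe]; exact hKW w.1
      have hcon := conc' hConc (V × Fin Q) (Fin N × Fin N) U (fun u ω => x u.1 ω) (fun u => dep u.1) Δ F B t
        hB0 ht0 hU (fun u ω => hxB u.1 ω) (fun u ω ω' h => hxdep u.1 ω ω' h) (by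
          intro u
          have hinj : ((univ.filter (fun u' : U => u' ≠ u ∧ ¬ Disjoint (dep u.1) (dep u'.1))).image
            (fun u' : U => u'.1)).card =
            (univ.filter (fun u' : U => u' ≠ u ∧ ¬ Disjoint (dep u.1) (dep u'.1))).card :=
            Finset.card_image_of_injective _ Subtype.val_injective
          have hle : (univ.filter (fun u' : U => u' ≠ u ∧ ¬ Disjoint (dep u.1) (dep u'.1))).card ≤
              Δ := by
            rw [← hinj]
            refine (card_le_card ?_).trans (card_ball_le hdeg (2 * S + 2) u.1)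
            intro v hv
            obtain ⟨u', hu', rfl⟩ := mem_image.mp hv
            simp only [mem_filter, mem_univ, true_and]
            exact hball _ _ (mem_filter.mp hu').2.2
          convert hle) (by
          intro u
          exact hxmean u.1 (mem_filter.mp u.2).1)
      have hsum : ∀ ω, ∑ u : U, x u.1 ω = ∑ u ∈ KW w.1, x u ω := by
        intro ω
        exact Finset.sum_coe_sort (KW w.1) (fun u => x u ω)
      have hexp : -(t ^ 2) / (2 * ((Δ : ℝ) + 1) ^ 2 * F * B ^ 2) = -(c * F) := by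
        rw [ht, hc]
        field_simp
        ring
      rw [hexp] at hcon
      simp only [hsum] at hcon
      exact hcon) (hF0 F hF)
  -- the conclusion
  refine ⟨K.filter (fun u => Rm ω u), Finset.filter_subset _ _, ?_, ?_, ?_⟩
  · intro u hu hgu
    exact mem_filter.mpr ⟨hu, hRm1 ω u hgu⟩
  · intro u hu hgu
    exact hRm0 ω u hgu (mem_filter.mp hu).2
  · intro i
    have hbad : ∑ u ∈ KW i, x u ω < t := by
      by_cases hi : i ∈ K.image win
      · exact not_le.mp (hω ⟨i, hi⟩)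
      · have : KW i = ∅ := by
          apply Finset.filter_eq_empty_iff.mpr
          intro u hu h
          exact hi (mem_image.mpr ⟨u, hu, h⟩)
        rw [this]
        simpa using ht0
    have h1 : ∑ u ∈ KW i, x u ω =
        (((KW i).filter (fun u => Rm ω u ∧ ∃ u', H.Adj u u' ∧ ¬ Rm ω u')).card : ℝ)
        - α * (((KW i).filter (fun u => Rm ω u)).card : ℝ) - ∑ u ∈ KW i, β u -
          (KW i).card * e := by
      have e1 : ∑ u ∈ KW i, ind (Rm ω u ∧ ∃ u', H.Adj u u' ∧ ¬ Rm ω u') =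
        (((KW i).filter (fun u => Rm ω u ∧ ∃ u', H.Adj u u' ∧ ¬ Rm ω u')).card : ℝ) := sum_ind _ _
      have e2 : ∑ u ∈ KW i, ind (Rm ω u) = (((KW i).filter (fun u => Rm ω u)).card : ℝ) :=
        sum_ind _ _
      show ∑ u ∈ KW i, (ind _ - α * ind _ - β u - e) = _
      rw [Finset.sum_sub_distrib, Finset.sum_sub_distrib, Finset.sum_sub_distrib, e1,
        ← Finset.mul_sum, e2]
      simp only [Finset.sum_const, nsmul_eq_mul]
    have h2 : ((K.filter (fun u => Rm ω u)).filter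
        (fun u => win u = i ∧ ∃ u' ∈ K \ K.filter (fun u => Rm ω u), H.Adj u u')) ⊆
        ((KW i).filter (fun u => Rm ω u ∧ ∃ u', H.Adj u u' ∧ ¬ Rm ω u')) := by
      intro u hu
      simp only [mem_filter, mem_sdiff, not_and] at hu
      obtain ⟨⟨huK, hRu⟩, hwi, u', ⟨hu'K, hu'⟩, hadj⟩ := hu
      simp only [KW, mem_filter]
      exact ⟨⟨huK, hwi⟩, hRu, u', hadj, hu' hu'K⟩
    have h3 : ((K.filter (fun u => Rm ω u)).filter (fun u => win u = i)) =
        (KW i).filter (fun u => Rm ω u) := by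
      ext u
      simp only [KW, mem_filter]
      tauto
    have h4 : (((K.filter (fun u => Rm ω u)).filter
        (fun u => win u = i ∧ ∃ u' ∈ K \ K.filter (fun u => Rm ω u), H.Adj u u')).card : ℝ) ≤
        (((KW i).filter (fun u => Rm ω u ∧ ∃ u', H.Adj u u' ∧ ¬ Rm ω u')).card : ℝ) := by
      exact_mod_cast card_le_card h2
    have h5 : ((KW i).card : ℝ) * e ≤ F * e := by
      have : ((KW i).card : ℝ) ≤ F := by exact_mod_cast hKW i
      gcongr
    rw [h3]
    rw [h1] at hbad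
    have h6 : F * e + t ≤ δ * F := by
      rw [he, ht]
      have : 0 ≤ δ * F := by positivity
      nlinarith
    show _ ≤ α * (((KW i).filter (fun u => Rm ω u)).card : ℝ) + ∑ u ∈ KW i, β u + δ * F
    linarith

end H57.ML.Rnd33
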