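import Pool.Agent.H57.ML.Stage
import Pool.Agent.H57.ML.Fin
import Pool.Agent.H18.ML.EN
import Pool.Agent.H18.ML.MU
import Pool.Agent.H19.ML.Ker
import Pool.Agent.H19.ML.MM
import Pool.Agent.H25.ML.LLL
import Pool.Agent.H25.ML.Sam
import Pool.Agent.H33.ML.Str
import Pool.Agent.H33.ML.Cnt
import Pool.Agent.H33.ML.Conc
import Pool.Agent.H57.ML.Rnd
import Pool.Agent.H73.ML.Fin
import Pool.Agent.H73.ML.Gf
import Pool.Agent.H73.ML.Path
import Pool.Agent.H73.ML.Red
import Pool.Agent.H73.ML.Sta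
import Pool.Agent.H73.ML.Strat
import Pool.Agent.H73.ML.Tour
import Pool.Agent.H73.ML.Trans

namespace H57.ML

theorem red_of (hSam : SamStmt) (hStr : StrStmt) : RedStmt :=
  H73.ML.red H73.ML.sta
    (H73.ML.path (stage H73.ML.gf) (H33.ML.cntThm hStr)
      (H57.ML.Rnd33.rnd H25.ML.lll H33.ML.conc hSam) H73.ML.tour)
    H73.ML.strat H73.ML.trans

end H57.ML
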