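import Mathlib

/-!
# Multi-layer Meyniel (MP_6ecee4_co): definitions
-/

namespace H57.ML

open scoped BigOperators
open Finset

/-- `v` can be reached from `u` by a walk of length at most `k` in `G`. -/
def Within {V : Type*} (G : SimpleGraph V) (k : ℕ) (u v : V) : Prop :=
  ∃ p : G.Walk u v, p.length ≤ k

section Within

variable {V : Type*} {G : SimpleGraph V}

theorem Within.refl (k : ℕ) (u : V) : Within G k u u := ⟨SimpleGraph.Walk.nil, by simp⟩

theorem Within.mono {k l : ℕ} {u v : V} (h : Within G k u v) (hkl : k ≤ l) : Within G l u v := by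
  obtain ⟨p, hp⟩ := h
  exact ⟨p, hp.trans hkl⟩

theorem Within.symm {k : ℕ} {u v : V} (h : Within G k u v) : Within G k v u := by
  obtain ⟨p, hp⟩ := h
  exact ⟨p.reverse, by simpa using hp⟩

theorem Within.trans {k l : ℕ} {u v w : V} (h : Within G k u v) (h' : Within G l v w) :
    Within G (k + l) u w := by
  obtain ⟨p, hp⟩ := h
  obtain ⟨q, hq⟩ := h'
  exact ⟨p.append q, by rw [SimpleGraph.Walk.length_append]; omega⟩

theorem Within.of_adj {u v : V} (h : G.Adj u v) : Within G 1 u v := ⟨h.toWalk, by simp⟩

theorem Within.step {k : ℕ} {u v w : V} (h : Within G k u v) (h' : G.Adj v w) :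
    Within G (k + 1) u w := h.trans (Within.of_adj h')

theorem Within.zero_iff {u v : V} : Within G 0 u v ↔ u = v := by
  constructor
  · rintro ⟨p, hp⟩
    exact SimpleGraph.Walk.eq_of_length_eq_zero (Nat.le_zero.mp hp)
  · rintro rfl
    exact Within.refl 0 u

theorem Within.succ_iff {k : ℕ} {u v : V} :
    Within G (k + 1) u v ↔ Within G k u v ∨ ∃ w, Within G k u w ∧ G.Adj w v := by
  constructor
  · intro h
    obtain ⟨p, hp⟩ := h.symm
    cases p with
    | nil => exact Or.inl (Within.refl k _)
    | cons hadj q =>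
      rename_i w
      refine Or.inr ⟨w, ?_, hadj.symm⟩
      refine Within.symm ⟨q, ?_⟩
      simp only [SimpleGraph.Walk.length_cons] at hp
      omega
  · rintro (h | ⟨w, h, hadj⟩)
    · exact h.mono (Nat.le_succ k)
    · exact h.step hadj

end Within

/-! ### The game -/

/-- `WinIn A R t p r`: the cops (indexed by `ι`, cop `i` moves along the edges of `A i`), standing at
`p`, with the robber at `r` and the cops to move, can catch the robber (who moves along `R`) within
`t` rounds. -/
def WinIn {V ι : Type*} (A : ι → SimpleGraph V) (R : SimpleGraph V) : ℕ → (ι → V) → V → Prop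
  | 0, p, r => ∃ i, p i = r
  | t + 1, p, r => (∃ i, p i = r) ∨
      ∃ p' : ι → V, (∀ i, p' i = p i ∨ (A i).Adj (p i) (p' i)) ∧
        ((∃ i, p' i = r) ∨ ∀ r', (r' = r ∨ R.Adj r r') → WinIn A R t p' r')

/-- the cops can force a capture. -/
def Win {V ι : Type*} (A : ι → SimpleGraph V) (R : SimpleGraph V) (p : ι → V) (r : V) : Prop :=
  ∃ t, WinIn A R t p r

/-! ### `ℓ¹` variation of a family of measures -/

open Classical in
/-- `ℓ¹`-distance of `ζ u` and `ζ u'`. -/
noncomputable def l1 {V : Type*} [Fintype V] (ζ : V → V → ℝ) (u u' : V) : ℝ :=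
  ∑ z, |ζ u z - ζ u' z|

open Classical in
/-- total variation of `ζ` at `u`: sum of the `ℓ¹`-distances to the neighbours. -/
noncomputable def var {V : Type*} [Fintype V] (H : SimpleGraph V) (ζ : V → V → ℝ) (u : V) : ℝ :=
  ∑ u' ∈ univ.filter (fun u' => H.Adj u u'), l1 ζ u u'

open Classical in
/-- quadratic variation of `ζ` at `u`. -/
noncomputable def var2 {V : Type*} [Fintype V] (H : SimpleGraph V) (ζ : V → V → ℝ) (u : V) : ℝ :=
  ∑ u' ∈ univ.filter (fun u' => H.Adj u u'), (l1 ζ u u') ^ 2

open Classical in
/-- every vertex has at most `D` neighbours. -/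
def DegLE {V : Type*} [Fintype V] (H : SimpleGraph V) (D : ℕ) : Prop :=
  ∀ v, (univ.filter (fun u => H.Adj v u)).card ≤ D

open Classical in
/-- balls have at most `(D + 1) ^ k` elements. -/
theorem card_ball_le {V : Type*} [Fintype V] {H : SimpleGraph V} {D : ℕ} (hD : DegLE H D) (k : ℕ)
    (v : V) : (univ.filter (fun u => Within H k v u)).card ≤ (D + 1) ^ k := by
  induction k with
  | zero =>
    have h : (univ.filter (fun u => Within H 0 v u)) = {v} := by
      ext u
      simp only [mem_filter, mem_univ, true_and, mem_singleton, Within.zero_iff]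
      exact eq_comm
    rw [h]; simp
  | succ k ih =>
    have h : (univ.filter (fun u => Within H (k + 1) v u)) ⊆
        (univ.filter (fun u => Within H k v u)).biUnion
          (fun w => insert w (univ.filter (fun u => H.Adj w u))) := by
      intro u hu
      simp only [mem_filter, mem_univ, true_and, Within.succ_iff] at hu
      simp only [mem_biUnion, mem_filter, mem_univ, true_and, mem_insert]
      rcases hu with hu | ⟨w, hw, hadj⟩
      · exact ⟨u, hu, Or.inl rfl⟩
      · exact ⟨w, hw, Or.inr hadj⟩
    calc (univ.filter (fun u => Within H (k + 1) v u)).card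
        ≤ ((univ.filter (fun u => Within H k v u)).biUnion
          (fun w => insert w (univ.filter (fun u => H.Adj w u)))).card := card_le_card h
      _ ≤ (univ.filter (fun u => Within H k v u)).card * (D + 1) := by
          apply card_biUnion_le_card_mul
          intro w _
          exact (card_insert_le _ _).trans (Nat.add_le_add_right (hD w) 1)
      _ ≤ (D + 1) ^ k * (D + 1) := Nat.mul_le_mul_right _ ih
      _ = (D + 1) ^ (k + 1) := by ring

/-- `ζ u` is a probability measure for each `u`. -/
def IsProb {V : Type*} [Fintype V] (ζ : V → V → ℝ) : Prop :=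
  (∀ u z, 0 ≤ ζ u z) ∧ ∀ u, ∑ z, ζ u z = 1

/-- `x` lies in all the balls of the history `l` (most recent position first); the ball around the
head of a list of length `a` has radius `ρ a`. -/
def Rel {V : Type*} (H : SimpleGraph V) (ρ : ℕ → ℕ) : List V → V → Prop
  | [], _ => True
  | y :: s, x => Within H (ρ (s.length + 1)) y x ∧ Rel H ρ s x

/-- the history `s` is a hit for `x` at radius `i`: within distance `i` of `x` there is a vertex at
which `ξ s` has total variation at least `η`. -/
def Hit {V : Type*} [Fintype V] (H : SimpleGraph V) (ρ : ℕ → ℕ) (m : ℕ) (ξ : List V → V → V → ℝ)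
    (η : ℝ) (i : ℕ) (x : V) (s : List V) : Prop :=
  s.length < m ∧ Rel H ρ s x ∧ ∃ w, η ≤ var H (ξ s) w ∧ Within H i x w

open Classical in
/-- number of nonempty suffixes of the history which are hits for `x` at radius `i`. -/
noncomputable def cnt {V : Type*} [Fintype V] (H : SimpleGraph V) (ρ : ℕ → ℕ) (m : ℕ)
    (ξ : List V → V → V → ℝ) (η : ℝ) (i : ℕ) (x : V) : List V → ℕ
  | [] => 0
  | y :: s => cnt H ρ m ξ η i x s + (if Hit H ρ m ξ η i x (y :: s) then 1 else 0)

open Classical in
/-- the finite set of lists of length `a` over `V`. -/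
noncomputable def lists (V : Type*) [Fintype V] : ℕ → Finset (List V)
  | 0 => {[]}
  | a + 1 => ((univ : Finset V) ×ˢ lists V a).image (fun q => q.1 :: q.2)

theorem mem_lists {V : Type*} [Fintype V] {a : ℕ} {l : List V} : l ∈ lists V a ↔ l.length = a := by
  induction a generalizing l with
  | zero => simp [lists]
  | succ a ih =>
    simp only [lists, mem_image, mem_product, mem_univ, true_and, Prod.exists]
    constructor
    · rintro ⟨x, s, hs, rfl⟩
      simp [ih.mp hs]
    · intro h
      cases l with
      | nil => simp at h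
      | cons x s => exact ⟨x, s, ih.mpr (by simpa using h), rfl⟩

theorem sum_lists_succ {V : Type*} [Fintype V] (a : ℕ) (f : List V → ℝ) :
    ∑ l ∈ lists V (a + 1), f l = ∑ s ∈ lists V a, ∑ y, f (y :: s) := by
  classical
  rw [lists, sum_image, sum_product_right]
  · rintro ⟨x, s⟩ _ ⟨x', s'⟩ _ h
    simp only [List.cons.injEq] at h
    exact Prod.ext h.1 h.2

/-- energy of `ζ` at `x` with respect to the smoothing kernel `Q`. -/
noncomputable def En {V : Type*} [Fintype V] (H : SimpleGraph V) (Q : V → V → ℝ)
    (ζ : V → V → ℝ) (x : V) : ℝ :=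
  ∑ u, Q x u * var2 H ζ u

/-- the convex set of admissible families: `ξ s u` is a probability measure supported in the ball of
radius `ρ (s.length + 1) + J` around `u` (for `s.length < m`). -/
def Xi {V : Type*} [Fintype V] (H : SimpleGraph V) (ρ : ℕ → ℕ) (m J : ℕ) :
    Set (List V → V → V → ℝ) :=
  {ξ | (∀ s, IsProb (ξ s)) ∧
    ∀ s u z, s.length < m → ξ s u z ≠ 0 → Within H (ρ (s.length + 1) + J) u z}

/-- properties of the smoothing kernel `Q` with tail `τ`. -/
structure IsKernel {V : Type*} [Fintype V] (H : SimpleGraph V) (D J : ℕ) (Q τ : V → V → ℝ) :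
    Prop where
  nonneg : ∀ x u, 0 ≤ Q x u
  tail_nonneg : ∀ x u, 0 ≤ τ x u
  sum_one : ∀ x, ∑ u, Q x u = 1
  tail_sum : ∀ x, ∑ u, τ x u ≤ (1 / 2) ^ J
  range : ∀ x u, Q x u ≠ 0 → Within H J x u
  quasi : ∀ x u u', H.Adj u u' → (1 / (2 * (D : ℝ))) * (Q x u - τ x u) ≤ Q x u'
  lower : ∀ x u i, i < J → Within H i x u → 1 / (2 * (2 * (D : ℝ)) ^ i) ≤ Q x u

end H57.ML
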