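import Pool.Agent.H57.ML.Defs

/-!
# Multi-layer Meyniel (MP_6ecee4_co): the multi-layer game, literally
-/

namespace H57.ML

open scoped BigOperators
open Finset

/-- A multi-layer graph on `V` with `τ` cop layers `C i` and robber layer `R`. -/
structure MultiLayerGraph (V : Type) (τ : ℕ) where
  /-- the cop layers -/
  C : Fin τ → SimpleGraph V
  /-- the robber layer -/
  R : SimpleGraph V

/-- A strategy of the cops for the allocation `k` (`k i` cops in layer `i`).  `pos h i j` is the
position of the `j`-th cop of layer `i` after the cops' reaction to the robber positions `h`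
(most recent first); `pos [] i j` is its starting vertex.  On each turn every cop stays or moves along
an edge of its own layer. -/
structure CopStrategy {V : Type} {τ : ℕ} (𝒢 : MultiLayerGraph V τ) (k : Fin τ → ℕ) where
  /-- the positions -/
  pos : List V → (i : Fin τ) → Fin (k i) → V
  /-- moves are legal -/
  legal : ∀ (h : List V) (r : V) (i : Fin τ) (j : Fin (k i)),
    pos (r :: h) i j = pos h i j ∨ (𝒢.C i).Adj (pos h i j) (pos (r :: h) i j)

/-- the first `t` positions `r 0, …, r (t - 1)` of the robber, most recent first. -/
def hist {V : Type} (r : ℕ → V) : ℕ → List V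
  | 0 => []
  | t + 1 => r t :: hist r t

/-- The cops win with the allocation `k`: there is a strategy such that for every legal play
`r 0, r 1, …` of the robber (`r 0` is his starting vertex, chosen after the cops' starting vertices)
at some moment the robber is on a vertex occupied by a cop: either right after the robber has
chosen his position `r t` (the cops standing at `pos (hist r t)`), or right after the next move of
the cops (who then stand at `pos (hist r (t + 1))`). -/
def CopsWin {V : Type} {τ : ℕ} (𝒢 : MultiLayerGraph V τ) (k : Fin τ → ℕ) : Prop :=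
  ∃ σ : CopStrategy 𝒢 k, ∀ r : ℕ → V, (∀ t, r (t + 1) = r t ∨ 𝒢.R.Adj (r t) (r (t + 1))) →
    ∃ t i j, σ.pos (hist r t) i j = r t ∨ σ.pos (hist r (t + 1)) i j = r t

/-- The multi-layer cop number: the least `n` such that the cops win with some allocation of `n`
cops to the layers. -/
noncomputable def copNumber {V : Type} {τ : ℕ} (𝒢 : MultiLayerGraph V τ) : ℕ :=
  sInf {n | ∃ k : Fin τ → ℕ, ∑ i, k i = n ∧ CopsWin 𝒢 k}

/-- The extremal multi-layer cop number `c^max_τ(G)`: maximum of the cop number over all
`(V, {C_1, …, C_τ}, E(G))` with `C_1 ∪ … ∪ C_τ = E(G)` and all layers `(V, C_i)` connected. -/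
noncomputable def copNumberMax (τ : ℕ) {V : Type} (G : SimpleGraph V) : ℕ :=
  sSup {c | ∃ C : Fin τ → SimpleGraph V, (∀ i, (C i).Connected) ∧ (⨆ i, C i) = G ∧
    c = copNumber (⟨C, G⟩ : MultiLayerGraph V τ)}

/-- maximum of `c^max_τ(G)` over the connected graphs `G` on `n` vertices. -/
noncomputable def extremal (τ n : ℕ) : ℕ :=
  sSup {c | ∃ G : SimpleGraph (Fin n), G.Connected ∧ c = copNumberMax τ G}

end H57.ML
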