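import Pool.Agent.H57.ML.Targets

namespace H57.ML

open Classical

theorem mv : MvStmt := by
  intro V ι A T p p' h
  choose w hw using h
  refine ⟨fun t i => if p i = p' i then p i else (w i).getVert t, ?_, ?_, ?_, ?_⟩
  · funext i
    by_cases hi : p i = p' i
    · simp [hi]
    · simp [hi]
  · funext i
    by_cases hi : p i = p' i
    · simp [hi]
    · simp only [hi, if_false]
      exact SimpleGraph.Walk.getVert_of_length_le _ (hw i)
  · intro t i
    by_cases hi : p i = p' i
    · simp [hi]
    · simp only [hi, if_false]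
      by_cases ht : t < (w i).length
      · exact Or.inr ((w i).adj_getVert_succ ht)
      · left
        push Not at ht
        rw [SimpleGraph.Walk.getVert_of_length_le _ ht,
          SimpleGraph.Walk.getVert_of_length_le _ (ht.trans (Nat.le_succ t))]
  · intro i hi t
    simp [hi]

theorem WinIn.of_caught {V ι : Type*} {A : ι → SimpleGraph V} {R : SimpleGraph V} {p : ι → V} {r : V}
    (h : ∃ i, p i = r) (t : ℕ) : WinIn A R t p r := by
  cases t with
  | zero => exact h
  | succ t => exact Or.inl h

theorem WinIn.succ {V ι : Type*} {A : ι → SimpleGraph V} {R : SimpleGraph V} {t : ℕ} {p : ι → V}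
    {r : V} (h : WinIn A R t p r) : WinIn A R (t + 1) p r := by
  induction t generalizing p r with
  | zero => exact Or.inl h
  | succ t ih =>
    rcases h with h | ⟨p', hp', h⟩
    · exact Or.inl h
    · refine Or.inr ⟨p', hp', ?_⟩
      rcases h with h | h
      · exact Or.inl h
      · exact Or.inr fun r' hr' => ih (h r' hr')

theorem WinIn.mono {V ι : Type*} {A : ι → SimpleGraph V} {R : SimpleGraph V} {s t : ℕ} {p : ι → V}
    {r : V} (h : WinIn A R s p r) (hst : s ≤ t) : WinIn A R t p r := by
  induction t, hst using Nat.le_induction with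
  | base => exact h
  | succ t _ ih => exact ih.succ

theorem Win.of_caught {V ι : Type*} {A : ι → SimpleGraph V} {R : SimpleGraph V} {p : ι → V} {r : V}
    (h : ∃ i, p i = r) : Win A R p r := ⟨0, h⟩

theorem Win.of_step {V ι : Type*} [Finite V] {A : ι → SimpleGraph V} {R : SimpleGraph V}
    {p : ι → V} {r : V} (p' : ι → V) (hp : ∀ i, p' i = p i ∨ (A i).Adj (p i) (p' i))
    (h : (∃ i, p' i = r) ∨ ∀ r', (r' = r ∨ R.Adj r r') → Win A R p' r') : Win A R p r := by
  rcases h with h | h
  · exact ⟨1, Or.inr ⟨p', hp, Or.inl h⟩⟩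
  · have hex : ∀ r' : V, ∃ t, (r' = r ∨ R.Adj r r') → WinIn A R t p' r' := by
      intro r'
      by_cases hr' : r' = r ∨ R.Adj r r'
      · obtain ⟨t, ht⟩ := h r' hr'
        exact ⟨t, fun _ => ht⟩
      · exact ⟨0, fun h' => absurd h' hr'⟩
    choose f hf using hex
    have := Fintype.ofFinite V
    refine ⟨(Finset.univ.sup f) + 1, Or.inr ⟨p', hp, Or.inr fun r' hr' => ?_⟩⟩
    exact (hf r' hr').mono (Finset.le_sup (Finset.mem_univ r'))

theorem play : PlayStmt := by
  intro V ι _ A R T
  induction T with
  | zero =>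
    intro P _ r0 h
    obtain ⟨t, ht, hw⟩ := h (fun _ => r0) rfl (fun _ => Or.inl rfl) (by intro t ht; omega)
    obtain rfl : t = 0 := by omega
    exact hw
  | succ T ih =>
    intro P hP r0 h
    by_cases h0 : ∃ i, P 0 i = r0
    · exact Win.of_caught h0
    by_cases h1 : ∃ i, P 1 i = r0
    · exact Win.of_step (P 1) (hP 0) (Or.inl h1)
    by_cases hw : Win A R (P 0) r0
    · exact hw
    refine Win.of_step (P 1) (hP 0) (Or.inr fun r1 hr1 => ?_)
    by_cases h2 : ∃ i, P 1 i = r1
    · exact Win.of_caught h2
    push Not at h0 h1 h2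
    have key := ih (fun t => P (t + 1)) (fun t i => hP (t + 1) i) r1 ?_
    · exact key
    intro r hr0 hr hcap
    let r' : ℕ → V := fun t => match t with
      | 0 => r0
      | t + 1 => r t
    obtain ⟨t, ht, hwin⟩ := h r' rfl (by
      intro t
      cases t with
      | zero =>
        show r 0 = r0 ∨ R.Adj r0 (r 0)
        rw [hr0]; exact hr1
      | succ t => exact hr t) (by
      intro t ht i
      cases t with
      | zero =>
        refine ⟨h0 i, h1 i, ?_⟩
        show P 1 i ≠ r 0
        rw [hr0]; exact h2 i
      | succ t => exact hcap t (by omega) i)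
    cases t with
    | zero => exact absurd hwin hw
    | succ t => exact ⟨t, by omega, hwin⟩

end H57.ML
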