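import Pool.Agent.H57.ML.StageC

namespace H57.ML

open scoped BigOperators
open Finset
open Classical

section

variable {V : Type} [Fintype V] {C H : SimpleGraph V} {D m J r L b q N M : ℕ} {η δ : ℝ}
    {ρ pw : ℕ → ℕ} {ξ : List V → V → V → ℝ} {c : ℕ → V} {σ : V → ℕ}

theorem StageHyp.win (h : StageHyp V C H D m J r L b q N M η δ ρ pw ξ c σ) (hgf : GfStmt) :
    ∀ (k : ℕ) (s : List V) (y : V) (K : Finset V) (p : (Fin N × Fin q) ⊕ Fin M → V)
      (used : Finset (Fin N × Fin q)), s.length + 1 + k = m →
      Inv H D m r L b q N M η δ ρ ξ c σ y s K p used → Win (fun _ => C) H p y := by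
  intro k
  induction k with
  | zero =>
    intro s y K p used hk inv
    exfalso
    have h1 := inv.hits y inv.mem (inv.ball y (Within.refl _ _))
    have h2 := h.cntr s y
    omega
  | succ k ih =>
    intro s y K p used hk inv
    have ha : s.length + 1 < m := by omega
    obtain ⟨Rem, F, used', hRemK, hRemN, hHit, hF, hFinj, husub, hcount⟩ := h.prepare hgf inv ha
    set a := s.length + 1 with ha_def
    set T := pw a * b with hT
    have hrho := h.rho a (by omega) ha
    -- the new positions
    let IsZ : V → Prop := fun z => z ∈ Rem ∧ ∃ u' ∈ K \ Rem, Rel H ρ (y :: s) u' ∧ H.Adj z u'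
    let p1 : (Fin N × Fin q) ⊕ Fin M → V := fun i => match i with
      | Sum.inl g => if hz : ∃ z, IsZ z ∧ F z = some g then hz.choose else p (Sum.inl g)
      | Sum.inr f => p (Sum.inr f)
    have hp1z : ∀ z, IsZ z → ∃ g ∈ used' \ used, p1 (Sum.inl g) = z ∧
        (g.1 : ℕ) / pw a = σ z / b / pw a := by
      intro z hz
      obtain ⟨g, hg, hFz, hgw⟩ := hF z hz.1 hz.2
      refine ⟨g, hg, ?_, hgw⟩
      have hex : ∃ z, IsZ z ∧ F z = some g := ⟨z, hz, hFz⟩
      show (if hz : ∃ z, IsZ z ∧ F z = some g then hz.choose else p (Sum.inl g)) = z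
      rw [dif_pos hex]
      exact hFinj _ _ hex.choose_spec.1 hz (by rw [hex.choose_spec.2, hFz])
    have hp1used : ∀ g ∈ used, p1 (Sum.inl g) = p (Sum.inl g) := by
      intro g hg
      show (if hz : ∃ z, IsZ z ∧ F z = some g then hz.choose else p (Sum.inl g)) = p (Sum.inl g)
      rw [dif_neg]
      rintro ⟨z, hz, hFz⟩
      obtain ⟨g', hg', hFz', _⟩ := hF z hz.1 hz.2
      rw [hFz] at hFz'
      rw [Option.some_injective _ hFz'] at hg
      exact (mem_sdiff.mp hg').2 hg
    have hp1free : ∀ g, g ∉ used' → p1 (Sum.inl g) = p (Sum.inl g) := by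
      intro g hg
      show (if hz : ∃ z, IsZ z ∧ F z = some g then hz.choose else p (Sum.inl g)) = p (Sum.inl g)
      rw [dif_neg]
      rintro ⟨z, hz, hFz⟩
      obtain ⟨g', hg', hFz', _⟩ := hF z hz.1 hz.2
      rw [hFz] at hFz'
      rw [Option.some_injective _ hFz'] at hg
      exact hg (mem_sdiff.mp hg').1
    have hmove : ∀ i, Within C T (p i) (p1 i) := by
      intro i
      rcases i with g | f
      · by_cases hz : ∃ z, IsZ z ∧ F z = some g
        · have e : p1 (Sum.inl g) = hz.choose := by
            show (if hz : ∃ z, IsZ z ∧ F z = some g then hz.choose else p (Sum.inl g)) = _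
            rw [dif_pos hz]
          rw [e]
          have hsp := hz.choose_spec
          set z := hz.choose
          obtain ⟨g', hg', hFz', hgw⟩ := hF z hsp.1.1 hsp.1.2
          rw [hsp.2] at hFz'
          have hgg := Option.some_injective _ hFz'
          rw [← hgg] at hg' hgw
          rw [inv.home g (mem_sdiff.mp hg').2]
          have hv := h.visit z
          have hb : 0 < b := h.hb
          have hpw := h.pw_pos a
          have e1 := Nat.div_add_mod (σ z / b) (pw a)
          have e2 := Nat.div_add_mod (σ z) b
          have e3 := Nat.div_add_mod (g.1 : ℕ) (pw a)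
          have m1 := Nat.mod_lt (σ z / b) (show 0 < pw a by omega)
          have m2 := Nat.mod_lt (σ z) hb
          have m3 := Nat.mod_lt (g.1 : ℕ) (show 0 < pw a by omega)
          rw [hgw] at e3
          set I := σ z / b / pw a
          set A := σ z / b % pw a
          set B := σ z % b
          set A' := (g.1 : ℕ) % pw a
          have f1 : σ z = (I * pw a) * b + A * b + B := by
            rw [← e2, ← e1]; ring
          have f2 : (g.1 : ℕ) * b = (I * pw a) * b + A' * b := by
            rw [← e3]; ring
          have g1 : A * b + b ≤ T := by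
            rw [hT]
            calc A * b + b = (A + 1) * b := by ring
              _ ≤ pw a * b := Nat.mul_le_mul_right _ (by omega)
          have g2 : A' * b + b ≤ T := by
            rw [hT]
            calc A' * b + b = (A' + 1) * b := by ring
              _ ≤ pw a * b := Nat.mul_le_mul_right _ (by omega)
          have := within_c' h.walk (s := (g.1 : ℕ) * b) (t := σ z) (T := T) (by omega) (by omega)
          rwa [hv] at this
        · have e : p1 (Sum.inl g) = p (Sum.inl g) := by
            show (if hz : ∃ z, IsZ z ∧ F z = some g then hz.choose else p (Sum.inl g)) = _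
            rw [dif_neg hz]
          rw [e]; exact Within.refl _ _
      · exact Within.refl _ _
    -- distances
    have hball : ∀ {t : ℕ} {x : V}, Within H t y x → t ≤ ρ a → Rel H ρ (y :: s) x := by
      intro t x hx ht
      exact inv.ball x (hx.mono ht)
    -- guards after phase 1
    have hguard1 : ∀ u u', H.Adj u u' → u ∉ K \ Rem → u' ∈ K \ Rem → Rel H ρ (y :: s) u →
        Rel H ρ (y :: s) u' → ∃ g ∈ used', p1 (Sum.inl g) = u := by
      intro u u' huu hu hu' hr hr'
      by_cases huK : u ∈ K
      · have huR : u ∈ Rem := by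
          by_contra hcon
          exact hu (mem_sdiff.mpr ⟨huK, hcon⟩)
        obtain ⟨g, hg, hgz, _⟩ := hp1z u ⟨huR, u', hu', hr', huu⟩
        exact ⟨g, (mem_sdiff.mp hg).1, hgz⟩
      · obtain ⟨g, hg, hgu⟩ := inv.guard u u' huu huK (mem_sdiff.mp hu').1 hr hr'
        exact ⟨g, husub hg, by rw [hp1used g hg, hgu]⟩
    -- phase 2
    have phase2 : ∀ r1 : V, r1 ∈ K \ Rem → Within H T y r1 → Win (fun _ => C) H p1 r1 := by
      intro r1 hr1 hr1w
      set R' := T + L + ρ (a + 1) with hR'
      -- flood positions
      have hflood : (univ.filter (fun u => Within H R' y u)).card ≤ (univ : Finset (Fin M)).card := by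
        rw [card_univ, Fintype.card_fin]
        refine le_trans (card_le_card ?_) (h.flood y)
        intro u hu
        simp only [mem_filter, mem_univ, true_and] at hu ⊢
        have := h.rho_mono (a := a) (by omega) ha
        exact hu.mono (by omega)
      obtain ⟨e, he, heinj⟩ := inj_of_card_le _ _ hflood
      let p2 : (Fin N × Fin q) ⊕ Fin M → V := fun i => match i with
        | Sum.inl g => p1 (Sum.inl g)
        | Sum.inr f => if hz : ∃ z, Within H R' y z ∧ e z = some f then hz.choose else p1 (Sum.inr f)
      have hp2 : ∀ z, Within H R' y z → ∃ i, p2 i = z := by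
        intro z hz
        obtain ⟨f, _, hf⟩ := he z (by simp [hz])
        refine ⟨Sum.inr f, ?_⟩
        have hex : ∃ z, Within H R' y z ∧ e z = some f := ⟨z, hz, hf⟩
        show (if hz : ∃ z, Within H R' y z ∧ e z = some f then hz.choose else p1 (Sum.inr f)) = z
        rw [dif_pos hex]
        apply heinj (by simp [hex.choose_spec.1]) (by simp [hz])
        rw [hex.choose_spec.2, hf]
      set T2 := Fintype.card V with hT2
      obtain ⟨P, hP0, hPT, hPstep, hPfix⟩ := mv V _ (fun _ => C) T2 p1 p2
        (fun i => within_card h.conn _ _)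
      rw [← hP0]
      have hPinl : ∀ t g, P t (Sum.inl g) = p1 (Sum.inl g) := fun t g => hPfix (Sum.inl g) rfl t
      refine play V _ (fun _ => C) H (T2 + 1) P hPstep r1 ?_
      intro rr hrr0 hrr hcap
      -- the robber leaves the ball of radius R'
      have hex : ∃ t, t ≤ T2 ∧ ¬ Within H R' y (rr t) := by
        by_contra hcon
        push Not at hcon
        obtain ⟨i, hi⟩ := hp2 (rr T2) (hcon T2 le_rfl)
        rw [← hPT] at hi
        exact (hcap T2 (by omega) i).1 hi
      obtain ⟨ht1, ht2⟩ := Nat.find_spec hex
      have hmin : ∀ t < Nat.find hex, Within H R' y (rr t) := by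
        intro t ht
        by_contra hcon
        exact Nat.find_min hex ht ⟨by omega, hcon⟩
      set t0 := Nat.find hex with ht0
      have ht0pos : 0 < t0 := by
        rcases Nat.eq_zero_or_pos t0 with h0 | h0
        · exfalso
          rw [h0, hrr0] at ht2
          exact ht2 (hr1w.mono (by omega))
        · exact h0
      -- confinement
      have hconf : ∀ t ≤ t0, rr t ∈ K \ Rem ∧ Within H (R' + 1) y (rr t) := by
        intro t
        induction t with
        | zero =>
          intro _
          rw [hrr0]
          exact ⟨hr1, hr1w.mono (by omega)⟩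
        | succ t iht =>
          intro ht
          obtain ⟨hK, _⟩ := iht (by omega)
          have hw := hmin t (by omega)
          rcases hrr t with heq | hadj
          · rw [heq]
            exact ⟨hK, hw.mono (by omega)⟩
          · have hw' : Within H (R' + 1) y (rr (t + 1)) := hw.step hadj
            refine ⟨?_, hw'⟩
            by_contra hcon
            obtain ⟨g, hg, hgu⟩ := hguard1 (rr (t + 1)) (rr t) hadj.symm hcon hK
              (hball hw' (by omega)) (hball hw (by omega))
            have := (hcap t (by omega) (Sum.inl g)).2.2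
            rw [hPinl] at this
            exact this hgu
      refine ⟨t0, by omega, ?_⟩
      obtain ⟨hyK, hyw⟩ := hconf t0 le_rfl
      -- the new invariant
      refine ih (y :: s) (rr t0) (K \ Rem) (P t0) used' (by simp only [List.length_cons]; omega)
        ⟨hyK, ?_, ?_, ?_, ?_, ?_⟩
      · intro x hx
        refine ⟨hx, ?_⟩
        have hlen : (y :: s).length + 1 = a + 1 := by simp [ha_def]
        rw [hlen] at hx
        exact hball (hyw.trans hx) (by omega)
      · intro g hg
        rw [hPinl, hp1free g hg]
        exact inv.home g (fun hg' => hg (husub hg'))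
      · intro u u' huu hu hu' hr hr'
        obtain ⟨g, hg, hgu⟩ := hguard1 u u' huu hu hu' hr.2 hr'.2
        exact ⟨g, hg, by rw [hPinl, hgu]⟩
      · intro u hu hr
        have h1 := inv.hits u (mem_sdiff.mp hu).1 hr.2
        have hfar : ¬ Within H (T + L) y u := by
          intro hcon
          apply ht2
          have hx : Within H (ρ (a + 1)) (rr t0) u := by
            have := hr.1
            simpa [ha_def] using this
          have := hcon.trans hx.symm
          exact this.mono (by omega)
        obtain ⟨w, hw1, hw2⟩ := hHit u hu hr.2 hfar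
        have hit : Hit H ρ m ξ η (r - 1) u (y :: s) :=
          ⟨by simp only [List.length_cons]; omega, hr.2, w, hw1, hw2⟩
        rw [cnt_cons_hit hit]
        simp only [List.length_cons]
        omega
      · exact hcount
    -- phase 1
    obtain ⟨P, hP0, hPT, hPstep, hPfix⟩ := mv V _ (fun _ => C) T p p1 hmove
    rw [← hP0]
    refine play V _ (fun _ => C) H T P hPstep y ?_
    intro rr hrr0 hrr hcap
    have hconf : ∀ t ≤ T, rr t ∈ K ∧ Within H t y (rr t) := by
      intro t
      induction t with
      | zero =>
        intro _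
        rw [hrr0]
        exact ⟨inv.mem, Within.refl _ _⟩
      | succ t iht =>
        intro ht
        obtain ⟨hK, hw⟩ := iht (by omega)
        rcases hrr t with heq | hadj
        · rw [heq]
          exact ⟨hK, hw.mono (by omega)⟩
        · have hw' : Within H (t + 1) y (rr (t + 1)) := hw.step hadj
          refine ⟨?_, hw'⟩
          by_contra hcon
          obtain ⟨g, hg, hgu⟩ := inv.guard (rr (t + 1)) (rr t) hadj.symm hcon hK
            (hball hw' (by omega)) (hball hw (by omega))
          have := (hcap t (by omega) (Sum.inl g)).2.2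
          rw [hPfix (Sum.inl g) (hp1used g hg).symm] at this
          exact this hgu
    refine ⟨T, le_rfl, ?_⟩
    obtain ⟨hK, hw⟩ := hconf T le_rfl
    rw [hPT]
    exact phase2 (rr T) (mem_sdiff.mpr ⟨hK, fun hcon => hRemN _ hcon hw⟩) hw

end

theorem stage (hgf : GfStmt) : StageStmt := by
  intro V _ C H D m J r L b q N M η δ ρ pw ξ c σ h
  refine ⟨fun i => match i with
    | Sum.inl g => c (g.1 * b)
    | Sum.inr f => c 0, fun y => ?_⟩
  have hm := h.hm
  obtain ⟨k, hk⟩ : ∃ k, m = k + 1 := ⟨m - 1, by omega⟩
  refine h.win hgf k [] y univ _ ∅ (by simp; omega) ⟨mem_univ _, ?_, ?_, ?_, ?_, ?_⟩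
  · intro x hx
    exact ⟨hx, trivial⟩
  · intro g _
    rfl
  · intro u u' _ hu
    exact absurd (mem_univ u) hu
  · intro u _ _
    simp
  · intro i
    have hη := h.eta_pos
    simp [cnt]

end H57.ML
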