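import Pool.Agent.H57.ML.Mv

namespace H57.ML

open scoped BigOperators
open Finset
open Classical

theorem inj_of_card_le {α β : Type} (S : Finset α) (T : Finset β) (h : S.card ≤ T.card) :
    ∃ f : α → Option β, (∀ x ∈ S, ∃ y ∈ T, f x = some y) ∧ Set.InjOn f S := by
  have hcard : (S : Set α).encard ≤ ((T.image some : Finset (Option β)) : Set (Option β)).encard := by
    rw [Set.encard_coe_eq_coe_finsetCard, Set.encard_coe_eq_coe_finsetCard,
      card_image_of_injective _ (Option.some_injective β)]
    exact_mod_cast h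
  obtain ⟨f, hf, hinj⟩ := (S.finite_toSet).exists_injOn_of_encard_le hcard
  refine ⟨f, fun x hx => ?_, hinj⟩
  have := hf (mem_coe.mpr hx)
  simp only [Set.mem_preimage, coe_image, Set.mem_image, mem_coe] at this
  obtain ⟨y, hy, hxy⟩ := this
  exact ⟨y, hy, hxy.symm⟩

theorem assign {α γ : Type} (Z : Finset α) (Fr : Finset γ) (wz : α → ℕ) (wg : γ → ℕ)
    (h : ∀ I, (Z.filter (fun z => wz z = I)).card ≤ (Fr.filter (fun g => wg g = I)).card) :
    ∃ F : α → Option γ, (∀ z ∈ Z, ∃ g ∈ Fr, F z = some g ∧ wg g = wz z) ∧ Set.InjOn F Z := by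
  choose f hf hinj using fun I => inj_of_card_le _ _ (h I)
  have key : ∀ z ∈ Z, ∃ g ∈ Fr, f (wz z) z = some g ∧ wg g = wz z := by
    intro z hz
    obtain ⟨g, hg, hzg⟩ := hf (wz z) z (by simp [hz])
    rw [mem_filter] at hg
    exact ⟨g, hg.1, hzg, hg.2⟩
  refine ⟨fun z => f (wz z) z, key, ?_⟩
  intro z hz z' hz' hzz
  obtain ⟨g, hg, h1, h2⟩ := key z hz
  obtain ⟨g', hg', h1', h2'⟩ := key z' hz'
  simp only at hzz
  have hgg : g = g' := by
    have : some g = some g' := by rw [← h1, ← h1', hzz]
    exact Option.some_injective _ this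
  have hw : wz z = wz z' := by rw [← h2, ← h2', hgg]
  have hz1 : z ∈ (Z.filter (fun x => wz x = wz z)) := by simp [mem_coe.mp hz]
  have hz2 : z' ∈ (Z.filter (fun x => wz x = wz z)) := by simp [mem_coe.mp hz', hw]
  refine hinj (wz z) hz1 hz2 ?_
  rw [hzz, hw]

theorem pick {N q : ℕ} (used : Finset (Fin N × Fin q)) (rel : Fin N → ℕ)
    (h : ∀ i, (used.filter (fun g => g.1 = i)).card + rel i ≤ q) :
    ∃ Fr : Finset (Fin N × Fin q), Disjoint Fr used ∧
      ∀ i, (Fr.filter (fun g => g.1 = i)).card = rel i := by
  have h1 : ∀ i, ∃ t ⊆ univ.filter (fun g : Fin N × Fin q => g.1 = i ∧ g ∉ used), t.card = rel i := by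
    intro i
    apply exists_subset_card_eq
    have hall : (univ.filter (fun g : Fin N × Fin q => g.1 = i)).card = q := by
      have : univ.filter (fun g : Fin N × Fin q => g.1 = i) = {i} ×ˢ univ := by
        ext ⟨x, y⟩; simp [eq_comm]
      rw [this, card_product]; simp
    have hsplit : (univ.filter (fun g : Fin N × Fin q => g.1 = i)).card ≤
        (univ.filter (fun g : Fin N × Fin q => g.1 = i ∧ g ∉ used)).card +
        (used.filter (fun g => g.1 = i)).card := by
      refine le_trans (card_le_card ?_) (card_union_le _ _)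
      intro g hg
      simp only [mem_filter, mem_univ, true_and, mem_union] at hg ⊢
      by_cases hgu : g ∈ used
      · exact Or.inr ⟨hgu, hg⟩
      · exact Or.inl ⟨hg, hgu⟩
    have := h i
    omega
  choose t ht htc using h1
  refine ⟨univ.biUnion t, ?_, ?_⟩
  · rw [disjoint_left]
    intro g hg hgu
    simp only [mem_biUnion, mem_univ, true_and] at hg
    obtain ⟨i, hi⟩ := hg
    have := ht i hi
    simp only [mem_filter, mem_univ, true_and] at this
    exact this.2 hgu
  · intro i
    rw [← htc i]
    congr 1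
    ext g
    simp only [mem_filter, mem_biUnion, mem_univ, true_and]
    constructor
    · rintro ⟨⟨j, hj⟩, hgi⟩
      have := ht j hj
      simp only [mem_filter, mem_univ, true_and] at this
      have hji : j = i := by rw [← this.1, hgi]
      rwa [← hji]
    · intro hg
      have := ht i hg
      simp only [mem_filter, mem_univ, true_and] at this
      exact ⟨⟨i, hg⟩, this.1⟩

theorem within_c {V : Type} {C : SimpleGraph V} {c : ℕ → V}
    (hw : ∀ t, c (t + 1) = c t ∨ C.Adj (c t) (c (t + 1))) (s k : ℕ) :
    Within C k (c s) (c (s + k)) := by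
  induction k with
  | zero => exact Within.refl 0 _
  | succ k ih =>
    rcases hw (s + k) with h | h
    · have : c (s + (k + 1)) = c (s + k) := h
      rw [this]
      exact ih.mono (Nat.le_succ k)
    · exact ih.step h

theorem within_c' {V : Type} {C : SimpleGraph V} {c : ℕ → V}
    (hw : ∀ t, c (t + 1) = c t ∨ C.Adj (c t) (c (t + 1))) {s t T : ℕ} (h1 : s ≤ t + T)
    (h2 : t ≤ s + T) : Within C T (c s) (c t) := by
  rcases le_total s t with h | h
  · obtain ⟨k, rfl⟩ := Nat.exists_eq_add_of_le h
    exact (within_c hw s k).mono (by omega)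
  · obtain ⟨k, rfl⟩ := Nat.exists_eq_add_of_le h
    exact ((within_c hw t k).mono (by omega)).symm

theorem within_card {V : Type} [Fintype V] {C : SimpleGraph V} (hC : C.Connected) (u v : V) :
    Within C (Fintype.card V) u v := by
  obtain ⟨p⟩ := hC.preconnected u v
  exact ⟨p.toPath, p.toPath.2.length_lt.le⟩

/-- number of vertices in a window. -/
theorem card_window_le {V : Type} [Fintype V] {c : ℕ → V} {σ : V → ℕ} (hv : ∀ v, c (σ v) = v)
    {F : ℕ} (hF : 0 < F) (i : ℕ) : (univ.filter (fun u => σ u / F = i)).card ≤ F := by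
  have hinj : Function.Injective σ := fun u v h => by rw [← hv u, ← hv v, h]
  calc (univ.filter (fun u => σ u / F = i)).card
      = ((univ.filter (fun u => σ u / F = i)).image σ).card := (card_image_of_injective _ hinj).symm
    _ ≤ (Ico (i * F) (i * F + F)).card := by
        apply card_le_card
        intro t ht
        simp only [mem_image, mem_filter, mem_univ, true_and] at ht
        obtain ⟨u, hu, rfl⟩ := ht
        rw [mem_Ico]
        have := Nat.div_add_mod (σ u) F
        have hm := Nat.mod_lt (σ u) hF
        rw [hu, mul_comm F i] at this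
        omega
    _ = F := by simp

end H57.ML
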