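import Pool.Agent.H57.ML.StageA

namespace H57.ML

open scoped BigOperators
open Finset
open Classical

/-- invariant of the strategy at the beginning of a stage: history `y :: s`, territory `K`, cop
positions `p`, used cops `used`. -/
structure Inv {V : Type} [Fintype V] (H : SimpleGraph V) (D m r L b q N M : ℕ)
    (η δ : ℝ) (ρ : ℕ → ℕ) (ξ : List V → V → V → ℝ) (c : ℕ → V) (σ : V → ℕ)
    (y : V) (s : List V) (K : Finset V) (p : (Fin N × Fin q) ⊕ Fin M → V)
    (used : Finset (Fin N × Fin q)) : Prop where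
  mem : y ∈ K
  ball : ∀ x, Within H (ρ (s.length + 1)) y x → Rel H ρ (y :: s) x
  home : ∀ g, g ∉ used → p (Sum.inl g) = c (g.1 * b)
  guard : ∀ u u', H.Adj u u' → u ∉ K → u' ∈ K → Rel H ρ (y :: s) u → Rel H ρ (y :: s) u' →
    ∃ g ∈ used, p (Sum.inl g) = u
  hits : ∀ u ∈ K, Rel H ρ (y :: s) u → s.length ≤ cnt H ρ m ξ η (r - 1) u s
  count : ∀ i : Fin N, ((used.filter (fun g => g.1 = i)).card : ℝ) ≤
    ((D : ℝ) + 1) * η * ((univ.filter (fun u => σ u / b = i ∧ u ∉ K)).card : ℝ) +
    ∑ u ∈ univ.filter (fun u => σ u / b = i),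
      D * Real.exp (-(η * ((r : ℝ) - 1))) * (cnt H ρ m ξ η 1 u s : ℝ) +
    s.length * ((D * Real.exp (-(η * ((L : ℝ) - 1))) + δ) * b + 1)

section

variable {V : Type} [Fintype V] {C H : SimpleGraph V} {D m J r L b q N M : ℕ} {η δ : ℝ}
    {ρ pw : ℕ → ℕ} {ξ : List V → V → V → ℝ} {c : ℕ → V} {σ : V → ℕ}

theorem StageHyp.rho_mono (h : StageHyp V C H D m J r L b q N M η δ ρ pw ξ c σ) {a : ℕ}
    (h1 : 1 ≤ a) (ha : a < m) : ρ a ≤ ρ 1 := by
  induction a, h1 using Nat.le_induction with
  | base => exact le_rfl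
  | succ a h1 ih =>
    have := h.rho a h1 (by omega)
    have := ih (by omega)
    omega

/-- the number of base windows in a window of stage `a` containing a vertex. -/
theorem StageHyp.idx_card (h : StageHyp V C H D m J r L b q N M η δ ρ pw ξ c σ) {a : ℕ}
    (h1 : 1 ≤ a) (ha : a < m) (z : V) :
    (univ.filter (fun i : Fin N => (i : ℕ) / pw a = σ z / b / pw a)).card = pw a := by
  have hpw := h.pw_pos a
  have hz : σ z / b < N := Nat.div_lt_of_lt_mul (by rw [mul_comm]; exact h.time z)
  obtain ⟨N', hN'⟩ := h.pw_dvd a h1 ha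
  set I := σ z / b / pw a with hI
  have hIlt : I < N' := by
    rw [hI]
    exact Nat.div_lt_of_lt_mul (by rw [← hN']; exact hz)
  have hbound : (I + 1) * pw a ≤ N := by
    rw [hN', mul_comm (pw a) N']
    exact Nat.mul_le_mul_right _ hIlt
  have hmap : (univ.filter (fun i : Fin N => (i : ℕ) / pw a = I)).image
      (fun i : Fin N => (i : ℕ)) =
      Ico (I * pw a) ((I + 1) * pw a) := by
    ext t
    simp only [mem_image, mem_filter, mem_univ, true_and, mem_Ico]
    constructor
    · rintro ⟨i, hi, rfl⟩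
      have := (Nat.div_eq_iff (by omega)).mp hi
      have h3 : (I + 1) * pw a = I * pw a + pw a := by ring
      omega
    · rintro ⟨h1, h2⟩
      have h3 : (I + 1) * pw a = I * pw a + pw a := by ring
      refine ⟨⟨t, by omega⟩, ?_, rfl⟩
      show t / pw a = I
      exact (Nat.div_eq_iff (by omega)).mpr ⟨h1, by omega⟩
  have hinj : Function.Injective (fun i : Fin N => (i : ℕ)) := Fin.val_injective
  rw [← card_image_of_injective _ hinj, hmap]
  simp only [Nat.card_Ico]
  have : (I + 1) * pw a = I * pw a + pw a := by ring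
  omega

end

end H57.ML
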