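import Pool.Agent.H57.ML.StageB

namespace H57.ML

open scoped BigOperators
open Finset
open Classical

section

variable {V : Type} [Fintype V] {C H : SimpleGraph V} {D m J r L b q N M : ℕ} {η δ : ℝ}
    {ρ pw : ℕ → ℕ} {ξ : List V → V → V → ℝ} {c : ℕ → V} {σ : V → ℕ}

/-- `κ₁`. -/
noncomputable abbrev kap (D : ℕ) (η : ℝ) (r : ℕ) : ℝ := D * Real.exp (-(η * ((r : ℝ) - 1)))

theorem kap_nonneg (D : ℕ) (η : ℝ) (r : ℕ) : 0 ≤ kap D η r := by
  unfold kap; positivity

/-- the bound for the used cops. -/
noncomputable def usedBound (H : SimpleGraph V) (D m r L b : ℕ) (η δ : ℝ) (ρ : ℕ → ℕ)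
    (ξ : List V → V → V → ℝ) (σ : V → ℕ) (i : ℕ) (s : List V) (K : Finset V) : ℝ :=
  ((D : ℝ) + 1) * η * ((univ.filter (fun u => σ u / b = i ∧ u ∉ K)).card : ℝ) +
    ∑ u ∈ univ.filter (fun u => σ u / b = i), kap D η r * (cnt H ρ m ξ η 1 u s : ℝ) +
    s.length * ((kap D η L + δ) * b + 1)

theorem StageHyp.usedBound_le (h : StageHyp V C H D m J r L b q N M η δ ρ pw ξ c σ) (i : ℕ)
    (s : List V) (K : Finset V) (hs : s.length ≤ m) :
    usedBound H D m r L b η δ ρ ξ σ i s K ≤ q := by
  have hb : 0 < b := h.hb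
  have hbR : (0 : ℝ) ≤ b := by positivity
  have hη := h.eta_pos
  have hδ := h.delta_pos
  have h1 : ((univ.filter (fun u => σ u / b = i ∧ u ∉ K)).card : ℝ) ≤ b := by
    have : (univ.filter (fun u => σ u / b = i ∧ u ∉ K)).card ≤ b := by
      refine le_trans (card_le_card ?_) (card_window_le h.visit hb i)
      intro u hu
      simp only [mem_filter, mem_univ, true_and] at hu ⊢
      exact hu.1
    exact_mod_cast this
  have h2 : ∑ u ∈ univ.filter (fun u => σ u / b = i), kap D η r * (cnt H ρ m ξ η 1 u s : ℝ) ≤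
      η * b := by
    calc ∑ u ∈ univ.filter (fun u => σ u / b = i), kap D η r * (cnt H ρ m ξ η 1 u s : ℝ)
        ≤ ∑ u ∈ univ.filter (fun u => σ u / b = i), η := sum_le_sum fun u _ => h.cnt1 s u
      _ = ((univ.filter (fun u => σ u / b = i)).card : ℝ) * η := by
          rw [sum_const, nsmul_eq_mul]
      _ ≤ b * η := by
          apply mul_le_mul_of_nonneg_right _ hη.le
          exact_mod_cast card_window_le h.visit hb i
      _ = η * b := by ring
  have h3 : (s.length : ℝ) * ((kap D η L + δ) * b + 1) ≤ 3 * η * b := by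
    have hk := kap_nonneg D η L
    have hs' : (s.length : ℝ) ≤ m := by exact_mod_cast hs
    calc (s.length : ℝ) * ((kap D η L + δ) * b + 1) ≤ m * ((kap D η L + δ) * b + 1) := by
          apply mul_le_mul_of_nonneg_right hs'
          positivity
      _ = (m * kap D η L + m * δ) * b + m := by ring
      _ ≤ (η + η) * b + η * b := by
          have e1 := h.kappa2
          have e2 := h.delta
          have e3 := h.round
          have : (m * kap D η L + m * δ) * b ≤ (η + η) * b := by
            apply mul_le_mul_of_nonneg_right _ hbR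
            have : m * kap D η L ≤ η := e1
            linarith
          linarith
      _ = 3 * η * b := by ring
  have h4 : ((D : ℝ) + 1) * η * ((univ.filter (fun u => σ u / b = i ∧ u ∉ K)).card : ℝ) ≤
      ((D : ℝ) + 1) * η * b := by
    apply mul_le_mul_of_nonneg_left h1
    positivity
  have h5 := h.q_ge
  unfold usedBound
  linarith

theorem cnt_cons_le (y : V) (s : List V) (u : V) (i : ℕ) :
    cnt H ρ m ξ η i u s ≤ cnt H ρ m ξ η i u (y :: s) := by
  simp [cnt]

theorem cnt_cons_hit {y : V} {s : List V} {u : V} {i : ℕ} (h : Hit H ρ m ξ η i u (y :: s)) :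
    cnt H ρ m ξ η i u (y :: s) = cnt H ρ m ξ η i u s + 1 := by
  simp [cnt, h]

/-- the data prepared at the beginning of a stage. -/
theorem StageHyp.prepare (h : StageHyp V C H D m J r L b q N M η δ ρ pw ξ c σ) (hgf : GfStmt)
    {y : V} {s : List V} {K : Finset V} {p : (Fin N × Fin q) ⊕ Fin M → V}
    {used : Finset (Fin N × Fin q)}
    (inv : Inv H D m r L b q N M η δ ρ ξ c σ y s K p used) (ha : s.length + 1 < m) :
    ∃ (Rem : Finset V) (F : V → Option (Fin N × Fin q)) (used' : Finset (Fin N × Fin q)),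
      Rem ⊆ K ∧ (∀ u ∈ Rem, ¬ Within H (pw (s.length + 1) * b) y u) ∧
      (∀ u ∈ K \ Rem, Rel H ρ (y :: s) u → ¬ Within H (pw (s.length + 1) * b + L) y u →
        ∃ w, η ≤ var H (ξ (y :: s)) w ∧ Within H (r - 1) u w) ∧
      (∀ z ∈ Rem, (∃ u' ∈ K \ Rem, Rel H ρ (y :: s) u' ∧ H.Adj z u') →
        ∃ g ∈ used' \ used, F z = some g ∧
          (g.1 : ℕ) / pw (s.length + 1) = σ z / b / pw (s.length + 1)) ∧
      (∀ z z', (z ∈ Rem ∧ ∃ u' ∈ K \ Rem, Rel H ρ (y :: s) u' ∧ H.Adj z u') →
        (z' ∈ Rem ∧ ∃ u' ∈ K \ Rem, Rel H ρ (y :: s) u' ∧ H.Adj z' u') → F z = F z' → z = z') ∧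
      used ⊆ used' ∧
      (∀ i : Fin N, ((used'.filter (fun g => g.1 = i)).card : ℝ) ≤
        usedBound H D m r L b η δ ρ ξ σ i (y :: s) (K \ Rem)) := by
  set a := s.length + 1 with ha_def
  have ha1 : 1 ≤ a := by omega
  have hb : 0 < b := h.hb
  have hη := h.eta_pos
  have hδ := h.delta_pos
  have hlen : (y :: s).length = a := by simp [ha_def]
  obtain ⟨g, g01, g_near, g_U, g_far, g_grad⟩ :=
    hgf D V H h.deg {w | η ≤ var H (ξ (y :: s)) w} y (pw a * b) L r η hη h.hr h.hL
  set Kb := K.filter (fun u => Rel H ρ (y :: s) u) with hKb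
  set κ1 := kap D η r with hκ1
  set κ2 := kap D η L with hκ2
  have hκ1' := kap_nonneg D η r
  have hκ2' := kap_nonneg D η L
  set α := ((D : ℝ) + 1) * η with hα
  have hα0 : 0 ≤ α := by positivity
  set β : V → ℝ := fun u => κ1 * (if ∃ w ∈ {w | η ≤ var H (ξ (y :: s)) w}, Within H 1 u w then 1
    else 0) + κ2 with hβ
  have hβ0 : ∀ u, 0 ≤ β u ∧ β u ≤ 1 := by
    intro u
    constructor
    · simp only [hβ]; split_ifs <;> positivity
    · simp only [hβ]
      have := h.beta
      have e1 : κ1 + κ2 ≤ 1 := this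
      split_ifs <;> linarith
  obtain ⟨Rem, hRemK, hRem1, hRem0, hRemw⟩ := h.rnd a ha1 (by omega) V H h.deg (ξ (y :: s))
    (h.xi_mem.1 _) (by
      intro u z huz
      have := h.xi_mem.2 (y :: s) u z (by rw [hlen]; omega) huz
      rwa [hlen] at this) g g01 Kb α β hα0 h.alpha hβ0 (by
      intro u hu
      have hg := g_grad u
      have hge := (g01 u).1
      by_cases hg0 : g u = 0
      · rw [hg0] at hg ⊢
        simp only [hβ, hα]
        linarith
      · have hvar : var H (ξ (y :: s)) u ≤ η := by
          by_contra hcon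
          push Not at hcon
          exact hg0 (g_U u hcon.le)
        have : g u * var H (ξ (y :: s)) u ≤ g u * η := mul_le_mul_of_nonneg_left hvar hge
        simp only [hβ, hα]
        have hexp : ((D : ℝ) + 1) * η * g u = D * η * g u + g u * η := by ring
        linarith) (fun u => σ u / b / pw a) (by
      intro i
      have hpos : 0 < pw a * b := Nat.mul_pos (h.pw_pos a) hb
      calc (univ.filter (fun u => σ u / b / pw a = i)).card
          = (univ.filter (fun u => σ u / (pw a * b) = i)).card := by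
            simp only [Nat.div_div_eq_div_mul, mul_comm b]
        _ ≤ pw a * b := card_window_le h.visit hpos i)
  -- number of cops needed from each base window
  set X : ℕ → ℝ := fun i => α * ((Rem.filter (fun u => σ u / b = i)).card : ℝ) +
    ∑ u ∈ Kb.filter (fun u => σ u / b = i), β u + δ * b with hX
  have hX0 : ∀ i, 0 ≤ X i := by
    intro i
    have : 0 ≤ ∑ u ∈ Kb.filter (fun u => σ u / b = i), β u := sum_nonneg fun u _ => (hβ0 u).1
    positivity
  set rel : Fin N → ℕ := fun i => ⌈X i⌉₊ with hrel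
  have hnew : ∀ i : ℕ, usedBound H D m r L b η δ ρ ξ σ i s K + X i + 1 ≤
      usedBound H D m r L b η δ ρ ξ σ i (y :: s) (K \ Rem) := by
    intro i
    have hA : ((univ.filter (fun u => σ u / b = i ∧ u ∉ K)).card : ℝ) +
        ((Rem.filter (fun u => σ u / b = i)).card : ℝ) ≤
        ((univ.filter (fun u => σ u / b = i ∧ u ∉ K \ Rem)).card : ℝ) := by
      have hdisj : Disjoint (univ.filter (fun u => σ u / b = i ∧ u ∉ K))
          (Rem.filter (fun u => σ u / b = i)) := by
        rw [disjoint_left]
        intro u hu hu'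
        simp only [mem_filter, mem_univ, true_and] at hu hu'
        exact hu.2 (mem_filter.mp (hRemK hu'.1)).1
      have := card_union_of_disjoint hdisj
      have h2 : ((univ.filter (fun u => σ u / b = i ∧ u ∉ K)) ∪
          (Rem.filter (fun u => σ u / b = i))).card ≤
          (univ.filter (fun u => σ u / b = i ∧ u ∉ K \ Rem)).card := by
        apply card_le_card
        intro u hu
        simp only [mem_union, mem_filter, mem_univ, true_and, mem_sdiff, not_and, not_not] at hu ⊢
        rcases hu with hu | hu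
        · exact ⟨hu.1, fun h' => absurd h' hu.2⟩
        · exact ⟨hu.2, fun _ => hu.1⟩
      rw [this] at h2
      exact_mod_cast h2
    have hS : ∑ u ∈ Kb.filter (fun u => σ u / b = i), β u ≤
        (∑ u ∈ univ.filter (fun u => σ u / b = i), κ1 * (cnt H ρ m ξ η 1 u (y :: s) : ℝ)) -
        (∑ u ∈ univ.filter (fun u => σ u / b = i), κ1 * (cnt H ρ m ξ η 1 u s : ℝ)) + κ2 * b := by
      rw [← sum_sub_distrib]
      simp only [hβ]
      rw [sum_add_distrib, sum_const, nsmul_eq_mul]
      have hsub : Kb.filter (fun u => σ u / b = i) ⊆ univ.filter (fun u => σ u / b = i) := by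
        intro u hu
        simp only [mem_filter, mem_univ, true_and] at hu ⊢
        exact hu.2
      have e1 : ((Kb.filter (fun u => σ u / b = i)).card : ℝ) * κ2 ≤ κ2 * b := by
        rw [mul_comm]
        apply mul_le_mul_of_nonneg_left _ hκ2'
        exact_mod_cast (card_le_card hsub).trans (card_window_le h.visit hb i)
      have e2 : ∑ u ∈ Kb.filter (fun u => σ u / b = i),
          κ1 * (if ∃ w ∈ {w | η ≤ var H (ξ (y :: s)) w}, Within H 1 u w then (1 : ℝ) else 0) ≤
          ∑ u ∈ univ.filter (fun u => σ u / b = i), (κ1 * (cnt H ρ m ξ η 1 u (y :: s) : ℝ) -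
            κ1 * (cnt H ρ m ξ η 1 u s : ℝ)) := by
        calc ∑ u ∈ Kb.filter (fun u => σ u / b = i),
          κ1 * (if ∃ w ∈ {w | η ≤ var H (ξ (y :: s)) w}, Within H 1 u w then (1 : ℝ) else 0)
            ≤ ∑ u ∈ Kb.filter (fun u => σ u / b = i), (κ1 * (cnt H ρ m ξ η 1 u (y :: s) : ℝ) -
            κ1 * (cnt H ρ m ξ η 1 u s : ℝ)) := by
              apply sum_le_sum
              intro u hu
              have hu1 := (mem_filter.mp (mem_filter.mp hu).1).2
              split_ifs with hw
              · have hit : Hit H ρ m ξ η 1 u (y :: s) := by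
                  obtain ⟨w, hw1, hw2⟩ := hw
                  exact ⟨by rw [hlen]; omega, hu1, w, hw1, hw2⟩
                rw [cnt_cons_hit hit]
                push_cast
                linarith
              · rw [mul_zero, ← mul_sub]
                apply mul_nonneg hκ1'
                have := cnt_cons_le (H := H) (ρ := ρ) (m := m) (ξ := ξ) (η := η) y s u 1
                have h' : (cnt H ρ m ξ η 1 u s : ℝ) ≤ cnt H ρ m ξ η 1 u (y :: s) := by
                  exact_mod_cast this
                linarith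
          _ ≤ _ := by
              apply sum_le_sum_of_subset_of_nonneg hsub
              intro u _ _
              rw [← mul_sub]
              apply mul_nonneg hκ1'
              have := cnt_cons_le (H := H) (ρ := ρ) (m := m) (ξ := ξ) (η := η) y s u 1
              have h' : (cnt H ρ m ξ η 1 u s : ℝ) ≤ cnt H ρ m ξ η 1 u (y :: s) := by
                exact_mod_cast this
              linarith
      linarith
    have hA' : α * ((univ.filter (fun u => σ u / b = i ∧ u ∉ K)).card : ℝ) +
        α * ((Rem.filter (fun u => σ u / b = i)).card : ℝ) ≤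
        α * ((univ.filter (fun u => σ u / b = i ∧ u ∉ K \ Rem)).card : ℝ) := by
      rw [← mul_add]
      exact mul_le_mul_of_nonneg_left hA hα0
    have hl : (((y :: s).length : ℕ) : ℝ) = s.length + 1 := by simp
    simp only [usedBound, hX, hl]
    have hexp : ((s.length : ℝ) + 1) * ((kap D η L + δ) * b + 1) =
      s.length * ((kap D η L + δ) * b + 1) + κ2 * b + δ * b + 1 := by
      rw [hκ2]; ring
    rw [hexp]
    linarith
  have hused : ∀ i : Fin N, ((used.filter (fun g => g.1 = i)).card : ℝ) ≤
      usedBound H D m r L b η δ ρ ξ σ i s K := inv.count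
  have hrelX : ∀ i : Fin N, (rel i : ℝ) ≤ X i + 1 := fun i => (Nat.ceil_lt_add_one (hX0 i)).le
  obtain ⟨Fr, hFrd, hFrc⟩ := pick used rel (by
    intro i
    have h1 := hnew i
    have h2 := h.usedBound_le i (y :: s) (K \ Rem) (by rw [hlen]; omega)
    have h3 := hused i
    have h4 := hrelX i
    have : (((used.filter (fun g => g.1 = i)).card + rel i : ℕ) : ℝ) ≤ q := by
      push_cast
      linarith
    exact_mod_cast this)
  set Z := Rem.filter (fun z => ∃ u' ∈ K \ Rem, Rel H ρ (y :: s) u' ∧ H.Adj z u') with hZ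
  have hbi : ∀ u, σ u / b < N := fun u => Nat.div_lt_of_lt_mul (by rw [mul_comm]; exact h.time u)
  obtain ⟨F, hF, hFinj⟩ := assign Z Fr (fun z => σ z / b / pw a) (fun g => (g.1 : ℕ) / pw a) (by
    intro I
    by_cases hne : (Z.filter (fun z => σ z / b / pw a = I)) = ∅
    · rw [hne]; simp
    obtain ⟨z, hz⟩ := nonempty_iff_ne_empty.mpr hne
    have hzI := (mem_filter.mp hz).2
    have hidx := h.idx_card ha1 (by omega) z
    rw [hzI] at hidx
    have hFrI : (Fr.filter (fun g => (g.1 : ℕ) / pw a = I)).card =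
        ∑ i ∈ univ.filter (fun i : Fin N => (i : ℕ) / pw a = I), rel i := by
      rw [card_eq_sum_card_fiberwise (f := fun g => g.1)
        (t := univ.filter (fun i : Fin N => (i : ℕ) / pw a = I))]
      · apply sum_congr rfl
        intro i hi
        rw [← hFrc i]
        congr 1
        ext g
        simp only [mem_filter, mem_univ, true_and] at hi ⊢
        constructor
        · rintro ⟨⟨h1, _⟩, h2⟩
          exact ⟨h1, h2⟩
        · rintro ⟨h1, h2⟩
          refine ⟨⟨h1, ?_⟩, h2⟩
          rw [h2]; exact hi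
      · intro g hg
        simp only [coe_filter, Set.mem_ofPred_eq, mem_univ, true_and] at hg ⊢
        exact hg.2
    rw [hFrI]
    have hw := hRemw I
    have hZI : (Rem.filter (fun u => σ u / b / pw a = I ∧ ∃ u' ∈ Kb \ Rem, H.Adj u u')) =
        Z.filter (fun z => σ z / b / pw a = I) := by
      ext u
      simp only [hZ, hKb, mem_filter, mem_sdiff]
      constructor
      · rintro ⟨h1, h2, u', ⟨⟨h3, h4⟩, h5⟩, h6⟩
        exact ⟨⟨h1, u', ⟨h3, h5⟩, h4, h6⟩, h2⟩
      · rintro ⟨⟨h1, u', ⟨h3, h5⟩, h4, h6⟩, h2⟩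
        exact ⟨h1, h2, u', ⟨⟨h3, h4⟩, h5⟩, h6⟩
    simp only [hZI] at hw
    have hmapR : ∀ (A : Finset V), ∀ u ∈ A.filter (fun u => σ u / b / pw a = I),
        (⟨σ u / b, hbi u⟩ : Fin N) ∈ univ.filter (fun i : Fin N => (i : ℕ) / pw a = I) := by
      intro A u hu
      simp only [mem_filter, mem_univ, true_and] at hu ⊢
      exact hu.2
    have hfib : ∀ (A : Finset V) (i : Fin N), i ∈ univ.filter (fun i : Fin N => (i : ℕ) / pw a = I) →
        (A.filter (fun u => σ u / b / pw a = I)).filter (fun u => (⟨σ u / b, hbi u⟩ : Fin N) = i) =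
          A.filter (fun u => σ u / b = i) := by
      intro A i hi
      ext u
      simp only [mem_filter, mem_univ, true_and, Fin.ext_iff] at hi ⊢
      constructor
      · rintro ⟨⟨h1, _⟩, h2⟩; exact ⟨h1, h2⟩
      · rintro ⟨h1, h2⟩
        refine ⟨⟨h1, ?_⟩, h2⟩
        rw [h2]; exact hi
    have hR : ((Rem.filter (fun u => σ u / b / pw a = I)).card : ℝ) =
        ∑ i ∈ univ.filter (fun i : Fin N => (i : ℕ) / pw a = I),
          ((Rem.filter (fun u => σ u / b = i)).card : ℝ) := by
      rw [card_eq_sum_card_fiberwise (f := fun u => (⟨σ u / b, hbi u⟩ : Fin N))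
        (t := univ.filter (fun i : Fin N => (i : ℕ) / pw a = I)) (fun u hu => hmapR Rem u hu)]
      push_cast
      apply sum_congr rfl
      intro i hi
      rw [hfib Rem i hi]
    have hB : ∑ u ∈ Kb.filter (fun u => σ u / b / pw a = I), β u =
        ∑ i ∈ univ.filter (fun i : Fin N => (i : ℕ) / pw a = I),
          ∑ u ∈ Kb.filter (fun u => σ u / b = i), β u := by
      rw [← sum_fiberwise_of_maps_to (hmapR Kb)]
      apply sum_congr rfl
      intro i hi
      rw [hfib Kb i hi]
    have hsum : (((Z.filter (fun z => σ z / b / pw a = I)).card : ℕ) : ℝ) ≤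
        ((∑ i ∈ univ.filter (fun i : Fin N => (i : ℕ) / pw a = I), rel i : ℕ) : ℝ) := by
      calc (((Z.filter (fun z => σ z / b / pw a = I)).card : ℕ) : ℝ)
          ≤ α * ((Rem.filter (fun u => σ u / b / pw a = I)).card : ℝ) +
            ∑ u ∈ Kb.filter (fun u => σ u / b / pw a = I), β u + δ * ((pw a * b : ℕ) : ℝ) := hw
        _ = ∑ i ∈ univ.filter (fun i : Fin N => (i : ℕ) / pw a = I), X i := by
            have e : ∑ i ∈ univ.filter (fun i : Fin N => (i : ℕ) / pw a = I), X i =
                α * (∑ i ∈ univ.filter (fun i : Fin N => (i : ℕ) / pw a = I),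
                  ((Rem.filter (fun u => σ u / b = i)).card : ℝ)) +
                (∑ i ∈ univ.filter (fun i : Fin N => (i : ℕ) / pw a = I),
                  ∑ u ∈ Kb.filter (fun u => σ u / b = i), β u) +
                ∑ i ∈ univ.filter (fun i : Fin N => (i : ℕ) / pw a = I), δ * (b : ℝ) := by
              rw [mul_sum, ← sum_add_distrib, ← sum_add_distrib]
            rw [e, ← hR, ← hB, sum_const, hidx, nsmul_eq_mul]
            push_cast
            ring
        _ ≤ ((∑ i ∈ univ.filter (fun i : Fin N => (i : ℕ) / pw a = I), rel i : ℕ) : ℝ) := by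
            push_cast
            exact sum_le_sum fun i _ => Nat.le_ceil _
    exact_mod_cast hsum)
  refine ⟨Rem, F, used ∪ Fr, fun u hu => (mem_filter.mp (hRemK hu)).1, ?_, ?_, ?_, ?_,
    subset_union_left, ?_⟩
  · intro u hu hw
    exact hRem0 u hu (g_near u hw)
  · intro u hu hrel' hfar
    rw [mem_sdiff] at hu
    by_contra hcon
    push Not at hcon
    refine hu.2 (hRem1 u ?_ (g_far u hfar ?_))
    · rw [hKb, mem_filter]
      exact ⟨hu.1, hrel'⟩
    · rintro ⟨w, hw1, hw2⟩
      exact hcon w hw1 hw2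
  · intro z hz hz'
    obtain ⟨g', hg', h1, h2⟩ := hF z (by rw [hZ, mem_filter]; exact ⟨hz, hz'⟩)
    refine ⟨g', ?_, h1, h2⟩
    rw [mem_sdiff, mem_union]
    exact ⟨Or.inr hg', disjoint_left.mp hFrd hg'⟩
  · intro z z' hz hz' hzz
    exact hFinj (by rw [hZ, mem_coe, mem_filter]; exact hz)
      (by rw [hZ, mem_coe, mem_filter]; exact hz') hzz
  · intro i
    have h1 := hnew i
    have h3 := hused i
    have h4 := hrelX i
    have h5 : (((used ∪ Fr).filter (fun g => g.1 = i)).card : ℝ) ≤
        ((used.filter (fun g => g.1 = i)).card : ℝ) + rel i := by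
      rw [filter_union, ← hFrc i]
      exact_mod_cast card_union_le _ _
    linarith

end

end H57.ML
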