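import Pool.Agent.H57.ML.Game

/-!
# Multi-layer Meyniel (MP_6ecee4_co): statements of the modules
-/

namespace H57.ML

open scoped BigOperators
open Finset
open Classical

/-! ### A. Structure theorem -/

/-- KER: the smoothing kernel `Q = ∑_{j<J} 2^{-(j+1)} P^j + 2^{-J} P^J`, tail `τ = 2^{-J} P^J`,
where `P` is the lazy walk (each edge with probability `1/D`). -/
def KerStmt : Prop :=
  ∀ (D J : ℕ), 1 ≤ D → ∀ (V : Type) [Fintype V] (H : SimpleGraph V), DegLE H D →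
    ∃ Q τ : V → V → ℝ, IsKernel H D J Q τ

/-- EN: the energy inequality for a consistent family `a` of (sub)measures. -/
def EnStmt : Prop :=
  ∀ (D m : ℕ) (e : ℝ), 1 ≤ D → 0 ≤ e → ∀ (V : Type) [Fintype V] (H : SimpleGraph V), DegLE H D →
    ∀ (a t : List V → V → ℝ), (∀ s u, 0 ≤ a s u) → (∀ s u, 0 ≤ t s u) →
      (∀ s u, s.length < m → a s u = ∑ y, a (y :: s) u) →
      (∀ s u u', H.Adj u u' → (1 / (2 * (D : ℝ))) * (a s u - t s u) ≤ a s u') →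
      (∀ j, 1 ≤ j → j < m → ∑ s ∈ lists V j, ∑ u, t s u ≤ e) →
      (∑ s ∈ lists V m, ∑ u, a s u ≤ 1) →
      ∑ j ∈ Ico 1 m, ∑ s ∈ lists V j, ∑ u, a s u *
        var2 H (fun u y => if a s u = 0 then (if y = u then (1 : ℝ) else 0)
          else a (y :: s) u / a s u) u ≤ 64 * (D : ℝ) ^ 3 + 16 * D * m * e

/-- MU: for every probability measure `μ` on the pairs (history of length `m`, point in all its
balls) there is an admissible family `ξ` with small average energy.  (Take `EnStmt` as hypothesis.) -/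
def MuStmt : Prop :=
  ∀ (D m J : ℕ), 1 ≤ D → 16 * D * m ≤ 2 ^ J → ∀ (ρ : ℕ → ℕ) (V : Type) [Fintype V]
    (H : SimpleGraph V), DegLE H D → ∀ (Q τ : V → V → ℝ), IsKernel H D J Q τ →
    ∀ μ : List V × V → ℝ, (∀ q, 0 ≤ μ q) → ∑ q ∈ lists V m ×ˢ univ, μ q = 1 →
      (∀ q, μ q ≠ 0 → Rel H ρ q.1 q.2) →
      ∃ ξ ∈ Xi H ρ m J, ∑ q ∈ lists V m ×ˢ univ,
        μ q * ∑ j ∈ Ico 1 m, En H Q (ξ (q.1.drop (m - j))) q.2 ≤ 64 * (D : ℝ) ^ 3 + 1

/-- MM: minimax for finitely many convex continuous functions on a compact convex set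
(Mathlib has Sion's theorem in `Mathlib.Topology.Sion`; or separate in `ι → ℝ`). -/
def MMStmt : Prop :=
  ∀ (E : Type) [AddCommGroup E] [Module ℝ E] [TopologicalSpace E] [IsTopologicalAddGroup E]
    [ContinuousSMul ℝ E] (K : Set E), Convex ℝ K → IsCompact K → K.Nonempty →
    ∀ (ι : Type) [Fintype ι] (A : ι → E → ℝ), (∀ i, ConvexOn ℝ K (A i)) →
      (∀ i, ContinuousOn (A i) K) → ∀ C : ℝ,
      (∀ μ : ι → ℝ, (∀ i, 0 ≤ μ i) → ∑ i, μ i = 1 → ∃ ξ ∈ K, ∑ i, μ i * A i ξ ≤ C) →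
      ∃ ξ ∈ K, ∀ i, A i ξ ≤ C

/-- STR: pointwise energy bound.  (Hypotheses: `KerStmt`, `MuStmt`, `MMStmt`; one has to show that
`Xi` is convex, compact (product topology), nonempty, and the energies are convex and continuous.) -/
def StrStmt : Prop :=
  ∀ (D m J : ℕ), 1 ≤ D → 16 * D * m ≤ 2 ^ J → ∀ (ρ : ℕ → ℕ) (V : Type) [Fintype V]
    (H : SimpleGraph V), DegLE H D →
    ∃ (Q τ : V → V → ℝ) (ξ : List V → V → V → ℝ), IsKernel H D J Q τ ∧ ξ ∈ Xi H ρ m J ∧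
      ∀ (l : List V) (x : V), l.length = m → Rel H ρ l x →
        ∑ j ∈ Ico 1 m, En H Q (ξ (l.drop (m - j))) x ≤ 64 * (D : ℝ) ^ 3 + 1

/-- CNT: every point is hit only boundedly often.  (Hypothesis: `StrStmt`.) -/
def CntStmt : Prop :=
  ∀ (D m J : ℕ) (η : ℝ), 1 ≤ D → 0 < η → 16 * D * m ≤ 2 ^ J → ∀ (ρ : ℕ → ℕ) (V : Type) [Fintype V]
    (H : SimpleGraph V), DegLE H D →
    ∃ ξ ∈ Xi H ρ m J, ∀ (l : List V) (x : V) (i : ℕ), i < J →
      (cnt H ρ m ξ η i x l : ℝ) ≤ (64 * (D : ℝ) ^ 3 + 1) * D * (2 * (2 * (D : ℝ)) ^ i) / η ^ 2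

/-! ### B. Rounding -/

/-- LLL: symmetric Lovász local lemma for events in a finite product space `I → Λ` (uniform). -/
def LLLStmt : Prop :=
  ∀ (I Λ W : Type) [Fintype I] [Fintype Λ] [Nonempty Λ] [Fintype W] (A : W → (I → Λ) → Prop)
    (dep : W → Finset I) (d : ℕ) (p : ℝ),
    (∀ w ω ω', (∀ i ∈ dep w, ω i = ω' i) → (A w ω ↔ A w ω')) →
    (∀ w, (univ.filter (fun w' => w' ≠ w ∧ ¬ Disjoint (dep w) (dep w'))).card ≤ d) →
    (∀ w, ((univ.filter (fun ω => A w ω)).card : ℝ) ≤ p * (Fintype.card (I → Λ) : ℝ)) →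
    4 * p * (d + 1) ≤ 1 → ∃ ω, ∀ w, ¬ A w ω

/-- CONC: concentration for sums of bounded variables with sparse dependencies
(colour the dependency graph with `Δ + 1` colours, Hoeffding on each class). -/
def ConcStmt : Prop :=
  ∀ (I Λ U : Type) [Fintype I] [Fintype Λ] [Nonempty Λ] [Fintype U] (x : U → (I → Λ) → ℝ)
    (dep : U → Finset I) (Δ F : ℕ) (B t : ℝ), 0 < B → 0 < t → Fintype.card U ≤ F →
    (∀ u ω, |x u ω| ≤ B) →
    (∀ u ω ω', (∀ i ∈ dep u, ω i = ω' i) → x u ω = x u ω') →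
    (∀ u, (univ.filter (fun u' => u' ≠ u ∧ ¬ Disjoint (dep u) (dep u'))).card ≤ Δ) →
    (∀ u, ∑ ω, x u ω ≤ 0) →
    ((univ.filter (fun ω => t ≤ ∑ u, x u ω)).card : ℝ) ≤
      (Δ + 1) * Real.exp (-(t ^ 2) / (2 * ((Δ : ℝ) + 1) ^ 2 * F * B ^ 2)) *
        (Fintype.card (I → Λ) : ℝ)

/-- SAM: random local removal with prescribed probabilities `g` (correlated sampling from `ζ`). -/
def SamStmt : Prop :=
  ∀ (D S : ℕ) (e : ℝ), 0 < e → ∃ Q N : ℕ, 0 < Q ∧ 0 < N ∧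
    ∀ (V : Type) [Fintype V] (H : SimpleGraph V), DegLE H D →
    ∀ ζ : V → V → ℝ, IsProb ζ → (∀ u z, ζ u z ≠ 0 → Within H S u z) →
    ∀ g : V → ℝ, (∀ u, 0 ≤ g u ∧ g u ≤ 1) →
    ∃ Rm : (V × Fin Q → Fin N × Fin N) → V → Prop,
      (∀ ω u, g u = 1 → Rm ω u) ∧ (∀ ω u, g u = 0 → ¬ Rm ω u) ∧
      (∀ u ω ω', (∀ z i, Within H S u z → ω (z, i) = ω' (z, i)) → (Rm ω u ↔ Rm ω' u)) ∧
      (∀ u, ((univ.filter (fun ω => Rm ω u ∧ ∃ u', H.Adj u u' ∧ ¬ Rm ω u')).card : ℝ) ≤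
        (g u * var H ζ u + ∑ u' ∈ univ.filter (fun u' => H.Adj u u'), max (g u - g u') 0 + e) *
          (Fintype.card (V × Fin Q → Fin N × Fin N) : ℝ)) ∧
      (∀ u, g u * (Fintype.card (V × Fin Q → Fin N × Fin N) : ℝ) ≤
        ((univ.filter (fun ω => Rm ω u)).card : ℝ))

/-- the rounding property for windows of size at most `F`. -/
def RndAt (D S : ℕ) (δ : ℝ) (F : ℕ) : Prop :=
    ∀ (V : Type) [Fintype V] (H : SimpleGraph V), DegLE H D →
    ∀ ζ : V → V → ℝ, IsProb ζ → (∀ u z, ζ u z ≠ 0 → Within H S u z) →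
    ∀ g : V → ℝ, (∀ u, 0 ≤ g u ∧ g u ≤ 1) →
    ∀ (K : Finset V) (α : ℝ) (β : V → ℝ), 0 ≤ α → α ≤ 1 → (∀ u, 0 ≤ β u ∧ β u ≤ 1) →
      (∀ u ∈ K, g u * var H ζ u + ∑ u' ∈ univ.filter (fun u' => H.Adj u u'), max (g u - g u') 0 ≤
        α * g u + β u) →
    ∀ win : V → ℕ, (∀ i, (univ.filter (fun u => win u = i)).card ≤ F) →
    ∃ Rem : Finset V, Rem ⊆ K ∧ (∀ u ∈ K, g u = 1 → u ∈ Rem) ∧ (∀ u ∈ Rem, g u ≠ 0) ∧
      ∀ i, ((Rem.filter (fun u => win u = i ∧ ∃ u' ∈ K \ Rem, H.Adj u u')).card : ℝ) ≤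
        α * ((Rem.filter (fun u => win u = i)).card : ℝ) +
          ∑ u ∈ K.filter (fun u => win u = i), β u + δ * F

/-- RND: the rounding lemma.  (Hypotheses: `LLLStmt`, `ConcStmt`, `SamStmt`.) -/
def RndStmt : Prop :=
  ∀ (D S : ℕ) (δ : ℝ), 1 ≤ D → 0 < δ → ∃ F0 : ℕ, ∀ F : ℕ, F0 ≤ F → RndAt D S δ F

/-- GF: the cutoff function. -/
def GfStmt : Prop :=
  ∀ (D : ℕ) (V : Type) [Fintype V] (H : SimpleGraph V), DegLE H D →
    ∀ (U : Set V) (y : V) (T L r : ℕ) (η : ℝ), 0 < η → 1 ≤ r → 1 ≤ L →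
    ∃ g : V → ℝ, (∀ u, 0 ≤ g u ∧ g u ≤ 1) ∧ (∀ u, Within H T y u → g u = 0) ∧
      (∀ u ∈ U, g u = 0) ∧
      (∀ u, ¬ Within H (T + L) y u → (¬ ∃ w ∈ U, Within H (r - 1) u w) → g u = 1) ∧
      ∀ u, ∑ u' ∈ univ.filter (fun u' => H.Adj u u'), max (g u - g u') 0 ≤
        D * η * g u + D * Real.exp (-(η * ((r : ℝ) - 1))) * (if ∃ w ∈ U, Within H 1 u w then 1 else 0) +
          D * Real.exp (-(η * ((L : ℝ) - 1)))

/-! ### C. The game -/

/-- STA: static cops. -/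
def StaStmt : Prop :=
  ∀ (V : Type) [Fintype V] (G : SimpleGraph V) (D0 : ℕ), 1 ≤ D0 →
    ∃ S : Finset V, D0 * S.card ≤ Fintype.card V ∧
      ∀ v, (univ.filter (fun u => G.Adj v u ∧ u ∉ S ∧ ∀ s ∈ S, ¬ G.Adj s u)).card < D0

/-- TOUR: a lazy walk of length at most `2 |V|` visiting all the vertices. -/
def TourStmt : Prop :=
  ∀ (V : Type) [Fintype V] [Nonempty V] (G : SimpleGraph V), G.Connected →
    ∃ c : ℕ → V, (∀ t, c (t + 1) = c t ∨ G.Adj (c t) (c (t + 1))) ∧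
      ∀ v, ∃ t ≤ 2 * Fintype.card V, c t = v

/-- MV: moving cops one by one in parallel. -/
def MvStmt : Prop :=
  ∀ (V ι : Type) (A : ι → SimpleGraph V) (T : ℕ) (p p' : ι → V),
    (∀ i, Within (A i) T (p i) (p' i)) →
    ∃ P : ℕ → ι → V, P 0 = p ∧ P T = p' ∧
      (∀ t i, P (t + 1) i = P t i ∨ (A i).Adj (P t i) (P (t + 1) i)) ∧
      ∀ i, p i = p' i → ∀ t, P t i = p i

/-- PLAY: playing a fixed sequence of cop positions for `T` rounds; if every robber path which is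
not captured meanwhile reaches at some time `t ≤ T` a position won by the cops, the cops win. -/
def PlayStmt : Prop :=
  ∀ (V ι : Type) [Fintype V] (A : ι → SimpleGraph V) (R : SimpleGraph V) (T : ℕ) (P : ℕ → ι → V),
    (∀ t i, P (t + 1) i = P t i ∨ (A i).Adj (P t i) (P (t + 1) i)) →
    ∀ r0 : V,
    (∀ r : ℕ → V, r 0 = r0 → (∀ t, r (t + 1) = r t ∨ R.Adj (r t) (r (t + 1))) →
      (∀ t < T, ∀ i, P t i ≠ r t ∧ P (t + 1) i ≠ r t ∧ P (t + 1) i ≠ r (t + 1)) →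
      ∃ t ≤ T, Win A R (P t) (r t)) →
    Win A R (P 0) r0

/-- Numerical and structural hypotheses of the stage theorem.
`m` = number of stages, `J` = smoothing range, `r` = cutoff width around the bad set, `L` = cutoff
width around the robber, `b` = size of the base windows (home of the cops), `q` = number of cops per
base window, `N` = number of base windows, `M` = number of flood cops, `ρ a` = radius of the ball of a
history of length `a`, `pw a` = number of base windows in a window of stage `a` (so these windows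
have at most `pw a * b` elements and the cops need `pw a * b` rounds). -/
structure StageHyp (V : Type) [Fintype V] (C H : SimpleGraph V) (D m J r L b q N M : ℕ)
    (η δ : ℝ) (ρ pw : ℕ → ℕ) (ξ : List V → V → V → ℝ) (c : ℕ → V) (σ : V → ℕ) : Prop where
  conn : C.Connected
  deg : DegLE H D
  hD : 1 ≤ D
  hm : 2 ≤ m
  hb : 1 ≤ b
  hr : 1 ≤ r
  hL : 1 ≤ L
  eta_pos : 0 < η
  delta_pos : 0 < δ
  rho : ∀ a, 1 ≤ a → a < m → pw a * b + L + 2 * ρ (a + 1) + 2 ≤ ρ a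
  rnd : ∀ a, 1 ≤ a → a < m → RndAt D (ρ (a + 1) + J) δ (pw a * b)
  pw_pos : ∀ a, 1 ≤ pw a
  pw_dvd : ∀ a, 1 ≤ a → a < m → pw a ∣ N
  xi_mem : ξ ∈ Xi H ρ m J
  cnt1 : ∀ l x, D * Real.exp (-(η * ((r : ℝ) - 1))) * (cnt H ρ m ξ η 1 x l : ℝ) ≤ η
  cntr : ∀ l x, cnt H ρ m ξ η (r - 1) x l + 1 < m
  alpha : ((D : ℝ) + 1) * η ≤ 1
  beta : D * Real.exp (-(η * ((r : ℝ) - 1))) + D * Real.exp (-(η * ((L : ℝ) - 1))) ≤ 1
  kappa2 : m * (D * Real.exp (-(η * ((L : ℝ) - 1)))) ≤ η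
  delta : m * δ ≤ η
  round : (m : ℝ) ≤ η * b
  q_ge : ((D : ℝ) + 5) * η * b ≤ q
  walk : ∀ t, c (t + 1) = c t ∨ C.Adj (c t) (c (t + 1))
  visit : ∀ v, c (σ v) = v
  time : ∀ v, σ v < N * b
  flood : ∀ y, (univ.filter (fun u => Within H (ρ 1) y u)).card ≤ M

/-- STAGE: the stage theorem (helper57 does this one).
(Hypotheses: `GfStmt`, `MvStmt`, `PlayStmt`.) -/
def StageStmt : Prop :=
  ∀ (V : Type) [Fintype V] (C H : SimpleGraph V) (D m J r L b q N M : ℕ) (η δ : ℝ)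
    (ρ pw : ℕ → ℕ) (ξ : List V → V → V → ℝ) (c : ℕ → V) (σ : V → ℕ),
    StageHyp V C H D m J r L b q N M η δ ρ pw ξ c σ →
    ∃ p : (Fin N × Fin q) ⊕ Fin M → V, ∀ y, Win (fun _ => C) H p y

/-- PATH: the main game theorem: on a graph `H` of bounded degree, few cops moving on an arbitrary
connected graph `C` on the same vertex set catch the robber.  (Hypotheses: `StageStmt`, `CntStmt`,
`RndStmt`, `TourStmt`; this module is the choice of the constants.) -/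
def PathStmt : Prop :=
  ∀ (D : ℕ) (ε : ℝ), 1 ≤ D → 0 < ε → ∃ n0 : ℕ, ∀ (V : Type) [Fintype V], n0 ≤ Fintype.card V →
    ∀ C H : SimpleGraph V, C.Connected → DegLE H D →
    ∃ N : ℕ, (N : ℝ) ≤ ε * Fintype.card V ∧ ∃ p : Fin N → V, ∀ r, Win (fun _ => C) H p r

/-- STRAT: a winning position of an abstract family of cops gives an upper bound for the
multi-layer cop number. -/
def StratStmt : Prop :=
  ∀ (V : Type) [Fintype V] (τ : ℕ) (𝒢 : MultiLayerGraph V τ) (ι : Type) [Fintype ι]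
    (lay : ι → Fin τ) (p : ι → V), (∀ r, Win (fun c => 𝒢.C (lay c)) 𝒢.R p r) →
    copNumber 𝒢 ≤ Fintype.card ι

/-- TRANS: adding static cops `s j` (moving along `B j`) which guard every vertex outside `V'`, the
robber graph may be replaced by its restriction to `V'`. -/
def TransStmt : Prop :=
  ∀ (V ι κ : Type) [Fintype V] (A : ι → SimpleGraph V) (B : κ → SimpleGraph V)
    (R H : SimpleGraph V) (p : ι → V) (s : κ → V) (V' : Set V),
    (∀ u v, R.Adj u v → u ∈ V' → v ∈ V' → H.Adj u v) →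
    (∀ v, v ∉ V' → ∃ j, s j = v ∨ (B j).Adj (s j) v) →
    ∀ r, (r ∈ V' → Win A H p r) → Win (Sum.elim A B) R (Sum.elim p s) r

/-- RED: reduction of the multi-layer game to `PathStmt`.
(Hypotheses: `StaStmt`, `PathStmt`, `StratStmt`, `TransStmt`.) -/
def RedStmt : Prop :=
  ∀ (τ : ℕ) (ε : ℝ), 1 ≤ τ → 0 < ε → ∃ n0 : ℕ, ∀ (V : Type) [Fintype V], n0 ≤ Fintype.card V →
    ∀ C : Fin τ → SimpleGraph V, (∀ i, (C i).Connected) →
    ∀ G : SimpleGraph V, (⨆ i, C i) = G →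
      (copNumber (⟨C, G⟩ : MultiLayerGraph V τ) : ℝ) ≤ ε * Fintype.card V

/-- FIN: the theorem.  (Hypothesis: `RedStmt`.) -/
def FinalStmt : Prop :=
  ∀ τ : ℕ, 1 ≤ τ →
    (fun n : ℕ => (extremal τ n : ℝ)) =o[Filter.atTop] (fun n : ℕ => (n : ℝ))

end H57.ML
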